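import Mathlib
import Pool.Graph.R_pool_sql_team_seeded_1acbe0a2.Y387.MD.Def

/-!
# Quadrics through the lines of a maximal ETF
-/

set_option autoImplicit false

namespace Pool.Agent.H47.SIC.Quad

open Finset Pool.Agent.Y387.SF Pool.Agent.Y387.MD

variable {d : ℕ} {ι : Type*} [Fintype ι] [DecidableEq ι]
variable {x : ι → EuclideanSpace ℂ (Fin d)}

/-- the design identity in coordinates -/
theorem design_coord (h : IsEtf d x) (hd : 1 ≤ d) (hcard : Fintype.card ι = d ^ 2)
    (a b c e : Fin d) :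
    ∑ j, (x j a * x j b) * (star (x j c) * star (x j e)) =
      ((d : ℂ) / (d + 1)) * ((if a = c then 1 else 0) * (if b = e then 1 else 0) +
        (if a = e then 1 else 0) * (if b = c then 1 else 0)) := by
  have h1 := design h hd hcard (by simp) (EuclideanSpace.single a (1 : ℂ))
    (EuclideanSpace.single b (1 : ℂ)) (EuclideanSpace.single c (1 : ℂ))
    (EuclideanSpace.single e (1 : ℂ))
  simp only [EuclideanSpace.inner_single_left, EuclideanSpace.inner_single_right, map_one, one_mul]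
    at h1
  have h2 : ∀ p q : Fin d, (starRingEnd ℂ) ((EuclideanSpace.single p (1 : ℂ)) q) =
      if q = p then (1 : ℂ) else 0 := by
    intro p q
    simp only [PiLp.single_apply]
    split_ifs <;> simp
  simp only [h2] at h1
  have h3 : ∀ p q : Fin d, (if p = q then (1 : ℂ) else 0) = if q = p then 1 else 0 := by
    intro p q
    by_cases hpq : p = q
    · rw [if_pos hpq, if_pos hpq.symm]
    · rw [if_neg hpq, if_neg (Ne.symm hpq)]
  rw [h3 a c, h3 b e, h3 a e, h3 b c]
  exact h1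

/-- the value of the quadratic form with matrix `Q` -/
def qf (Q : Matrix (Fin d) (Fin d) ℂ) (v : EuclideanSpace ℂ (Fin d)) : ℂ :=
  ∑ a, ∑ b, Q a b * (v a * v b)

/-- the constant `2d/(d+1)` -/
noncomputable def kap (d : ℕ) : ℂ := 2 * (d : ℂ) / (d + 1)

/-- reconstruction of the matrix from the values of its quadratic form -/
theorem recon (h : IsEtf d x) (hd : 1 ≤ d) (hcard : Fintype.card ι = d ^ 2)
    (Q : Matrix (Fin d) (Fin d) ℂ) (hQ : Q.transpose = Q) (c e : Fin d) :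
    ∑ j, qf Q (x j) * (star (x j c) * star (x j e)) = kap d * Q c e := by
  have e1 : ∑ j, qf Q (x j) * (star (x j c) * star (x j e)) =
      ∑ a, ∑ b, Q a b * ∑ j, (x j a * x j b) * (star (x j c) * star (x j e)) := by
    unfold qf
    simp only [Finset.sum_mul, Finset.mul_sum]
    rw [Finset.sum_comm]
    apply Finset.sum_congr rfl
    intro a _
    rw [Finset.sum_comm]
    apply Finset.sum_congr rfl
    intro b _
    apply Finset.sum_congr rfl
    intro j _
    ring
  rw [e1]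
  simp only [design_coord h hd hcard]
  have e2 : ∀ a b, Q a b * ((d : ℂ) / (d + 1) * ((if a = c then 1 else 0) *
      (if b = e then 1 else 0) + (if a = e then 1 else 0) * (if b = c then 1 else 0))) =
      (d : ℂ) / (d + 1) * ((if a = c then (if b = e then Q a b else 0) else 0) +
        (if a = e then (if b = c then Q a b else 0) else 0)) := by
    intro a b
    split_ifs <;> ring
  simp only [e2, ← Finset.mul_sum, Finset.sum_add_distrib]
  simp only [Finset.sum_ite_eq', Finset.mem_univ, if_true, Finset.sum_ite_irrel,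
    Finset.sum_const_zero]
  have e3 : Q e c = Q c e := by
    conv_lhs => rw [← hQ]
    rfl
  rw [e3]
  unfold kap
  ring

/-- the inner product in coordinates -/
theorem inner_coord (v w : EuclideanSpace ℂ (Fin d)) :
    inner ℂ v w = ∑ a, star (v a) * w a := by
  rw [PiLp.inner_apply]
  apply Finset.sum_congr rfl
  intro a _
  rw [RCLike.inner_apply]
  have : (starRingEnd ℂ) (v a) = star (v a) := rfl
  rw [this]
  ring

/-- the values form an eigenvector of the entrywise square of the Gram matrix -/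
theorem eigen (h : IsEtf d x) (hd : 1 ≤ d) (hcard : Fintype.card ι = d ^ 2)
    (Q : Matrix (Fin d) (Fin d) ℂ) (hQ : Q.transpose = Q) (k : ι) :
    ∑ j, qf Q (x j) * inner ℂ (x j) (x k) ^ 2 = kap d * qf Q (x k) := by
  have e1 : ∀ j, qf Q (x j) * inner ℂ (x j) (x k) ^ 2 =
      ∑ c, ∑ e, (qf Q (x j) * (star (x j c) * star (x j e))) * (x k c * x k e) := by
    intro j
    rw [inner_coord, sq, Finset.sum_mul_sum, Finset.mul_sum]
    apply Finset.sum_congr rfl
    intro c _
    rw [Finset.mul_sum]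
    apply Finset.sum_congr rfl
    intro e _
    ring
  rw [Finset.sum_congr rfl (fun j _ => e1 j), Finset.sum_comm]
  conv_rhs => rw [qf, Finset.mul_sum]
  apply Finset.sum_congr rfl
  intro c _
  rw [Finset.sum_comm, Finset.mul_sum]
  apply Finset.sum_congr rfl
  intro e _
  rw [← Finset.sum_mul, recon h hd hcard Q hQ]
  ring

/-- the sum of the squares of the values -/
theorem sum_sq (h : IsEtf d x) (hd : 1 ≤ d) (hcard : Fintype.card ι = d ^ 2)
    (Q : Matrix (Fin d) (Fin d) ℂ) (hQ : Q.transpose = Q) :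
    ∑ j, qf Q (x j) * star (qf Q (x j)) = kap d * ∑ c, ∑ e, Q c e * star (Q c e) := by
  have e1 : ∀ j, qf Q (x j) * star (qf Q (x j)) =
      ∑ c, ∑ e, (qf Q (x j) * (star (x j c) * star (x j e))) * star (Q c e) := by
    intro j
    conv_lhs => rw [show star (qf Q (x j)) = ∑ c, ∑ e, star (Q c e) * (star (x j c) * star (x j e))
      from by unfold qf; simp only [star_sum, star_mul']]
    rw [Finset.mul_sum]
    apply Finset.sum_congr rfl
    intro c _
    rw [Finset.mul_sum]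
    apply Finset.sum_congr rfl
    intro e _
    ring
  rw [Finset.sum_congr rfl (fun j _ => e1 j), Finset.sum_comm, Finset.mul_sum]
  apply Finset.sum_congr rfl
  intro c _
  rw [Finset.sum_comm, Finset.mul_sum]
  apply Finset.sum_congr rfl
  intro e _
  rw [← Finset.sum_mul, recon h hd hcard Q hQ]
  ring

theorem kap_ne (hd : 1 ≤ d) : kap d ≠ 0 := by
  unfold kap
  have h1 : (d : ℂ) ≠ 0 := by
    have : d ≠ 0 := by omega
    exact_mod_cast this
  have h2 : (d : ℂ) + 1 ≠ 0 := by exact_mod_cast d.succ_ne_zero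
  exact div_ne_zero (mul_ne_zero two_ne_zero h1) h2

/-- a quadratic form vanishing on all lines is zero -/
theorem exists_ne (h : IsEtf d x) (hd : 1 ≤ d) (hcard : Fintype.card ι = d ^ 2)
    (Q : Matrix (Fin d) (Fin d) ℂ) (hQ : Q.transpose = Q) (h0 : Q ≠ 0) :
    ∃ j, qf Q (x j) ≠ 0 := by
  by_contra hcon
  push Not at hcon
  apply h0
  ext c e
  have h1 := recon h hd hcard Q hQ c e
  simp only [hcon, zero_mul, Finset.sum_const_zero] at h1
  have := (mul_eq_zero.mp h1.symm).resolve_left (kap_ne hd)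
  simpa using this

theorem norm_inner_sq (h : IsEtf d x) {j k : ι} (hjk : j ≠ k) :
    ‖inner ℂ (x j) (x k) ^ 2‖ = 1 / ((d : ℝ) + 1) := by
  rw [norm_pow, h.ang j k hjk, div_pow, Real.sq_sqrt (by positivity), one_pow]

/-- at the maximum of `|q|`: the main inequality, with its equality case -/
theorem max_ineq (h : IsEtf d x) (hd : 1 ≤ d) (hcard : Fintype.card ι = d ^ 2)
    (Q : Matrix (Fin d) (Fin d) ℂ) (hQ : Q.transpose = Q) (k : ι)
    (hk0 : qf Q (x k) ≠ 0)
    (hmax : ∀ j, ‖qf Q (x j)‖ ≤ ‖qf Q (x k)‖) (U : Finset ι)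
    (hU : ∀ j, j ∉ U → qf Q (x j) = 0) :
    d ≤ U.card ∧ (U.card = d → ∀ j ∈ U, j ≠ k →
      ‖qf Q (x j)‖ = ‖qf Q (x k)‖ ∧
      ((d : ℂ) + 1) * (qf Q (x j) * inner ℂ (x j) (x k) ^ 2) = qf Q (x k)) := by
  have hdR : (0 : ℝ) < (d : ℝ) + 1 := by positivity
  have hdC : (d : ℂ) + 1 ≠ 0 := by exact_mod_cast d.succ_ne_zero
  have hkU : k ∈ U := by
    by_contra hk
    exact hk0 (hU k hk)
  have h1 := eigen h hd hcard Q hQ k
  have h2 : ∑ j, qf Q (x j) * inner ℂ (x j) (x k) ^ 2 =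
      ∑ j ∈ U, qf Q (x j) * inner ℂ (x j) (x k) ^ 2 := by
    symm
    apply Finset.sum_subset (Finset.subset_univ U)
    intro j _ hj
    rw [hU j hj, zero_mul]
  rw [h2, ← Finset.add_sum_erase U _ hkU, h.inner_self] at h1
  -- sum over the others
  set W := U.erase k with hW
  have hWcard : (W.card : ℝ) = U.card - 1 := by
    rw [hW, Finset.card_erase_of_mem hkU, Nat.cast_sub (Finset.card_pos.mpr ⟨k, hkU⟩)]
    simp
  have h3 : ∑ j ∈ W, qf Q (x j) * inner ℂ (x j) (x k) ^ 2 =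
      (((d : ℂ) - 1) / (d + 1)) * qf Q (x k) := by
    have : ∑ j ∈ W, qf Q (x j) * inner ℂ (x j) (x k) ^ 2 =
        kap d * qf Q (x k) - qf Q (x k) := by
      linear_combination h1
    rw [this]
    unfold kap
    field_simp
    ring
  have hqk : 0 < ‖qf Q (x k)‖ := norm_pos_iff.mpr hk0
  have h4 : ∀ j ∈ W, ‖qf Q (x j) * inner ℂ (x j) (x k) ^ 2‖ ≤ ‖qf Q (x k)‖ / ((d : ℝ) + 1) := by
    intro j hj
    rw [norm_mul, norm_inner_sq h (Finset.ne_of_mem_erase hj), mul_one_div]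
    exact div_le_div_of_nonneg_right (hmax j) hdR.le
  have h5 : ‖∑ j ∈ W, qf Q (x j) * inner ℂ (x j) (x k) ^ 2‖ =
      ((d : ℝ) - 1) / (d + 1) * ‖qf Q (x k)‖ := by
    rw [h3, norm_mul]
    congr 1
    have hd1 : (1 : ℝ) ≤ d := by exact_mod_cast hd
    have : ((d : ℂ) - 1) / (d + 1) = (((d : ℝ) - 1) / (d + 1) : ℝ) := by push_cast; rfl
    rw [this, Complex.norm_real, Real.norm_of_nonneg (div_nonneg (by linarith) hdR.le)]
  have h6 : ‖∑ j ∈ W, qf Q (x j) * inner ℂ (x j) (x k) ^ 2‖ ≤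
      W.card * (‖qf Q (x k)‖ / ((d : ℝ) + 1)) := by
    refine (norm_sum_le _ _).trans ?_
    refine (Finset.sum_le_sum h4).trans ?_
    rw [Finset.sum_const, nsmul_eq_mul]
  constructor
  · rw [h5, hWcard] at h6
    have h7 : ((d : ℝ) - 1) * ‖qf Q (x k)‖ ≤ ((U.card : ℝ) - 1) * ‖qf Q (x k)‖ := by
      have h8 : ((d : ℝ) - 1) / (d + 1) * ‖qf Q (x k)‖ * (d + 1) ≤
          ((U.card : ℝ) - 1) * (‖qf Q (x k)‖ / ((d : ℝ) + 1)) * (d + 1) :=
        mul_le_mul_of_nonneg_right h6 hdR.le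
      have e1 : ((d : ℝ) - 1) / (d + 1) * ‖qf Q (x k)‖ * (d + 1) =
          ((d : ℝ) - 1) * ‖qf Q (x k)‖ := by field_simp
      have e2 : ((U.card : ℝ) - 1) * (‖qf Q (x k)‖ / ((d : ℝ) + 1)) * (d + 1) =
          ((U.card : ℝ) - 1) * ‖qf Q (x k)‖ := by field_simp
      rw [e1, e2] at h8
      exact h8
    have h9 := le_of_mul_le_mul_right h7 hqk
    have h10 : (d : ℝ) ≤ U.card := by linarith
    exact_mod_cast h10
  · intro hUd j hj hjk
    have hWd : (W.card : ℝ) = (d : ℝ) - 1 := by rw [hWcard, hUd]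
    -- real parts
    set c : ℂ := star (qf Q (x k)) with hc
    have hcc : c * qf Q (x k) = ((‖qf Q (x k)‖ ^ 2 : ℝ) : ℂ) := by
      rw [hc, mul_comm]
      have := Complex.mul_conj (qf Q (x k))
      rw [Complex.normSq_eq_norm_sq] at this
      exact this
    have hre : ∑ i ∈ W, (c * (((d : ℂ) + 1) * (qf Q (x i) * inner ℂ (x i) (x k) ^ 2))).re =
        W.card * ‖qf Q (x k)‖ ^ 2 := by
      rw [← Complex.re_sum, ← Finset.mul_sum, ← Finset.mul_sum, h3]
      have : c * (((d : ℂ) + 1) * (((d : ℂ) - 1) / (d + 1) * qf Q (x k))) =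
          ((((d : ℝ) - 1) * ‖qf Q (x k)‖ ^ 2 : ℝ) : ℂ) := by
        calc c * (((d : ℂ) + 1) * (((d : ℂ) - 1) / (d + 1) * qf Q (x k))) =
            ((d : ℂ) - 1) * (c * qf Q (x k)) := by field_simp
          _ = _ := by rw [hcc]; push_cast; ring
      rw [this, Complex.ofReal_re, hWd]
    have hle : ∀ i ∈ W, (c * (((d : ℂ) + 1) * (qf Q (x i) * inner ℂ (x i) (x k) ^ 2))).re ≤
        ‖qf Q (x k)‖ ^ 2 := by
      intro i hi
      refine (Complex.re_le_norm _).trans ?_
      rw [norm_mul, norm_mul, norm_mul, norm_inner_sq h (Finset.ne_of_mem_erase hi)]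
      have hn1 : ‖c‖ = ‖qf Q (x k)‖ := by rw [hc]; exact norm_star _
      have hn2 : ‖(d : ℂ) + 1‖ = (d : ℝ) + 1 := by
        have : (d : ℂ) + 1 = (((d : ℝ) + 1 : ℝ) : ℂ) := by push_cast; rfl
        rw [this, Complex.norm_real, Real.norm_of_nonneg hdR.le]
      rw [hn1, hn2]
      have : ‖qf Q (x k)‖ * (((d : ℝ) + 1) * (‖qf Q (x i)‖ * (1 / ((d : ℝ) + 1)))) =
          ‖qf Q (x k)‖ * ‖qf Q (x i)‖ := by field_simp
      rw [this, sq]
      exact mul_le_mul_of_nonneg_left (hmax i) hqk.le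
    have heq : ∀ i ∈ W, (c * (((d : ℂ) + 1) * (qf Q (x i) * inner ℂ (x i) (x k) ^ 2))).re =
        ‖qf Q (x k)‖ ^ 2 := by
      have hs : ∑ i ∈ W, (c * (((d : ℂ) + 1) * (qf Q (x i) * inner ℂ (x i) (x k) ^ 2))).re =
          ∑ i ∈ W, ‖qf Q (x k)‖ ^ 2 := by
        rw [hre, Finset.sum_const, nsmul_eq_mul]
      exact (Finset.sum_eq_sum_iff_of_le hle).mp hs
    have hj' : j ∈ W := Finset.mem_erase.mpr ⟨hjk, hj⟩
    have hj1 := heq j hj'
    -- the number `z` below has norm at most `‖q_k‖` and `re (conj q_k * z) = ‖q_k‖²`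
    set z : ℂ := ((d : ℂ) + 1) * (qf Q (x j) * inner ℂ (x j) (x k) ^ 2) with hz
    have hzn : ‖z‖ = ‖qf Q (x j)‖ := by
      rw [hz, norm_mul, norm_mul, norm_inner_sq h hjk]
      have hn2 : ‖(d : ℂ) + 1‖ = (d : ℝ) + 1 := by
        have : (d : ℂ) + 1 = (((d : ℝ) + 1 : ℝ) : ℂ) := by push_cast; rfl
        rw [this, Complex.norm_real, Real.norm_of_nonneg hdR.le]
      rw [hn2]
      field_simp
    have hzle : ‖z‖ ≤ ‖qf Q (x k)‖ := by rw [hzn]; exact hmax j
    have hnsq : ‖z - qf Q (x k)‖ ^ 2 ≤ 0 := by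
      have e1 : ‖z - qf Q (x k)‖ ^ 2 = ‖z‖ ^ 2 - 2 * (c * z).re + ‖qf Q (x k)‖ ^ 2 := by
        rw [← Complex.normSq_eq_norm_sq, ← Complex.normSq_eq_norm_sq, ← Complex.normSq_eq_norm_sq,
          Complex.normSq_sub]
        have : (z * (starRingEnd ℂ) (qf Q (x k))).re = (c * z).re := by
          rw [hc, mul_comm]
          rfl
        rw [this]
        ring
      rw [e1, hj1]
      have : ‖z‖ ^ 2 ≤ ‖qf Q (x k)‖ ^ 2 := by gcongr
      linarith
    have hzeq : z = qf Q (x k) := by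
      have h0 : ‖z - qf Q (x k)‖ = 0 := by
        have := sq_nonneg ‖z - qf Q (x k)‖
        have h00 : ‖z - qf Q (x k)‖ ^ 2 = 0 := le_antisymm hnsq this
        exact pow_eq_zero_iff (by norm_num) |>.mp h00
      exact sub_eq_zero.mp (norm_eq_zero.mp h0)
    exact ⟨by rw [← hzn, hzeq], hzeq⟩

end Pool.Agent.H47.SIC.Quad
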