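import Mathlib
import Pool.Agent.H47.SIC.Quadric

/-!
# Quadrics through the lines of a maximal ETF: the counting theorem and its equality case
-/

set_option autoImplicit false

namespace Pool.Agent.H47.SIC.Quad

open Finset Pool.Agent.Y387.SF Pool.Agent.Y387.MD

variable {d : ℕ} {ι : Type*} [Fintype ι] [DecidableEq ι]
variable {x : ι → EuclideanSpace ℂ (Fin d)}

theorem exists_max (h : IsEtf d x) (hd : 1 ≤ d) (hcard : Fintype.card ι = d ^ 2)
    (Q : Matrix (Fin d) (Fin d) ℂ) (hQ : Q.transpose = Q) (h0 : Q ≠ 0) :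
    ∃ k, qf Q (x k) ≠ 0 ∧ ∀ j, ‖qf Q (x j)‖ ≤ ‖qf Q (x k)‖ := by
  obtain ⟨j0, hj0⟩ := exists_ne h hd hcard Q hQ h0
  have hne : (Finset.univ : Finset ι).Nonempty := ⟨j0, Finset.mem_univ _⟩
  obtain ⟨k, -, hk⟩ := Finset.exists_max_image Finset.univ (fun j => ‖qf Q (x j)‖) hne
  refine ⟨k, ?_, fun j => hk j (Finset.mem_univ _)⟩
  intro hk0
  have h1 := hk j0 (Finset.mem_univ _)
  rw [hk0, norm_zero] at h1
  exact hj0 (norm_le_zero_iff.mp h1)

/-- at most `d² - d` zeros -/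
theorem card_zeros (h : IsEtf d x) (hd : 1 ≤ d) (hcard : Fintype.card ι = d ^ 2)
    (Q : Matrix (Fin d) (Fin d) ℂ) (hQ : Q.transpose = Q) (h0 : Q ≠ 0) :
    (Finset.univ.filter (fun j => qf Q (x j) = 0)).card + d ≤ d ^ 2 := by
  obtain ⟨k, hk0, hmax⟩ := exists_max h hd hcard Q hQ h0
  have h1 := (max_ineq h hd hcard Q hQ k hk0 hmax
    (Finset.univ.filter (fun j => ¬ qf Q (x j) = 0)) (by
      intro j hj
      simpa using hj)).1
  have h2 := Finset.card_filter_add_card_filter_not (s := (Finset.univ : Finset ι))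
    (fun j => qf Q (x j) = 0)
  rw [Finset.card_univ, hcard] at h2
  omega

/-- the phases are real if the bound is attained -/
theorem real_of_eq (h : IsEtf d x) (hd : 1 ≤ d) (hcard : Fintype.card ι = d ^ 2)
    (Q : Matrix (Fin d) (Fin d) ℂ) (hQ : Q.transpose = Q) (h0 : Q ≠ 0) (T : Finset ι)
    (hT : T.card = d) (hz : ∀ j, j ∉ T → qf Q (x j) = 0) {i j k : ι} (hi : i ∈ T) (hj : j ∈ T)
    (hk : k ∈ T) (hij : i ≠ j) (hjk : j ≠ k) (hki : k ≠ i) :
    ((d : ℂ) + 1) ^ 3 *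
      (inner ℂ (x i) (x j) * inner ℂ (x j) (x k) * inner ℂ (x k) (x i)) ^ 2 = 1 := by
  obtain ⟨m, hm0, hmax⟩ := exists_max h hd hcard Q hQ h0
  have h1 := (max_ineq h hd hcard Q hQ m hm0 hmax T hz).2 hT
  have hmT : m ∈ T := by
    by_contra hm
    exact hm0 (hz m hm)
  have hall : ∀ a ∈ T, ‖qf Q (x a)‖ = ‖qf Q (x m)‖ := by
    intro a ha
    by_cases ham : a = m
    · rw [ham]
    · exact (h1 a ha ham).1
  have h2 : ∀ a ∈ T, ∀ b ∈ T, b ≠ a →
      ((d : ℂ) + 1) * (qf Q (x b) * inner ℂ (x b) (x a) ^ 2) = qf Q (x a) ∧ qf Q (x a) ≠ 0 := by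
    intro a ha b hb hba
    have ha0 : qf Q (x a) ≠ 0 := by
      rw [← norm_pos_iff, hall a ha]
      exact norm_pos_iff.mpr hm0
    have h3 := (max_ineq h hd hcard Q hQ a ha0 (fun c => (hmax c).trans (hall a ha).ge) T hz).2
      hT b hb hba
    exact ⟨h3.2, ha0⟩
  obtain ⟨e1, n1⟩ := h2 j hj i hi hij
  obtain ⟨e2, n2⟩ := h2 k hk j hj hjk
  obtain ⟨e3, n3⟩ := h2 i hi k hk hki
  have hprod : qf Q (x i) * qf Q (x j) * qf Q (x k) ≠ 0 := mul_ne_zero (mul_ne_zero n3 n1) n2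
  apply mul_left_cancel₀ hprod
  calc qf Q (x i) * qf Q (x j) * qf Q (x k) * (((d : ℂ) + 1) ^ 3 *
        (inner ℂ (x i) (x j) * inner ℂ (x j) (x k) * inner ℂ (x k) (x i)) ^ 2)
      = (((d : ℂ) + 1) * (qf Q (x i) * inner ℂ (x i) (x j) ^ 2)) *
        (((d : ℂ) + 1) * (qf Q (x j) * inner ℂ (x j) (x k) ^ 2)) *
        (((d : ℂ) + 1) * (qf Q (x k) * inner ℂ (x k) (x i) ^ 2)) := by ring
    _ = qf Q (x i) * qf Q (x j) * qf Q (x k) * 1 := by rw [e1, e2, e3]; ring

/-- a real set of `d` lines gives a quadric through the other lines -/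
theorem exists_quadric (h : IsEtf d x) (hd : 1 ≤ d) (hcard : Fintype.card ι = d ^ 2)
    (T : Finset ι) (hT : T.card = d)
    (hreal : ∀ i ∈ T, ∀ j ∈ T, ∀ k ∈ T, i ≠ j → j ≠ k → k ≠ i → ((d : ℂ) + 1) ^ 3 *
      (inner ℂ (x i) (x j) * inner ℂ (x j) (x k) * inner ℂ (x k) (x i)) ^ 2 = 1) :
    ∃ Q : Matrix (Fin d) (Fin d) ℂ, Q.transpose = Q ∧ Q ≠ 0 ∧
      (∀ j, j ∉ T → qf Q (x j) = 0) := by
  have hdC : (d : ℂ) + 1 ≠ 0 := by exact_mod_cast d.succ_ne_zero
  have hd0 : (d : ℂ) ≠ 0 := by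
    have : d ≠ 0 := by omega
    exact_mod_cast this
  obtain ⟨o, ho⟩ : T.Nonempty := Finset.card_pos.mp (by omega)
  have hmi : ∀ {i j : ι}, i ≠ j → inner ℂ (x i) (x j) * inner ℂ (x j) (x i) =
      (1 : ℂ) / ((d : ℂ) + 1) := by
    intro i j hij
    rw [h.mul_inner, if_neg hij, zero_add]
  let u : ι → ℂ := fun j => if j = o then 1 else ((d : ℂ) + 1) * inner ℂ (x o) (x j) ^ 2
  have hu : ∀ j ∈ T, ∀ k ∈ T, j ≠ k →
      ((d : ℂ) + 1) * (u j * inner ℂ (x j) (x k) ^ 2) = u k := by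
    intro j hj k hk hjk
    by_cases hjo : j = o
    · subst hjo
      simp only [u, if_true, if_neg (Ne.symm hjk)]
      ring
    · by_cases hko : k = o
      · subst hko
        simp only [u, if_true, if_neg hjo]
        have h1 := hmi (Ne.symm hjk)
        calc ((d : ℂ) + 1) * (((d : ℂ) + 1) * inner ℂ (x k) (x j) ^ 2 * inner ℂ (x j) (x k) ^ 2)
            = (((d : ℂ) + 1) * (inner ℂ (x k) (x j) * inner ℂ (x j) (x k))) ^ 2 := by ring
          _ = 1 := by rw [h1]; field_simp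
      · simp only [u, if_neg hjo, if_neg hko]
        have h1 := hreal o ho j hj k hk (Ne.symm hjo) hjk hko
        have h2 := hmi hko
        -- multiply by `⟨o,k⟩²`
        calc ((d : ℂ) + 1) * (((d : ℂ) + 1) * inner ℂ (x o) (x j) ^ 2 * inner ℂ (x j) (x k) ^ 2)
            = ((d : ℂ) + 1) ^ 2 * inner ℂ (x o) (x j) ^ 2 * inner ℂ (x j) (x k) ^ 2 *
              (((d : ℂ) + 1) * (inner ℂ (x k) (x o) * inner ℂ (x o) (x k))) ^ 2 := by
                rw [h2]; field_simp
          _ = ((d : ℂ) + 1) * inner ℂ (x o) (x k) ^ 2 * (((d : ℂ) + 1) ^ 3 *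
              (inner ℂ (x o) (x j) * inner ℂ (x j) (x k) * inner ℂ (x k) (x o)) ^ 2) := by ring
          _ = ((d : ℂ) + 1) * inner ℂ (x o) (x k) ^ 2 := by rw [h1, mul_one]
  have hu1 : ∀ j ∈ T, u j * star (u j) = 1 := by
    intro j hj
    by_cases hjo : j = o
    · simp [u, hjo]
    · simp only [u, if_neg hjo]
      have h1 := hmi (Ne.symm hjo)
      have h2 : star (inner ℂ (x o) (x j)) = inner ℂ (x j) (x o) := inner_conj_symm _ _
      have h3 : star ((d : ℂ) + 1) = (d : ℂ) + 1 := by simp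
      rw [star_mul', star_pow, h2, h3]
      calc ((d : ℂ) + 1) * inner ℂ (x o) (x j) ^ 2 * (((d : ℂ) + 1) * inner ℂ (x j) (x o) ^ 2)
          = (((d : ℂ) + 1) * (inner ℂ (x o) (x j) * inner ℂ (x j) (x o))) ^ 2 := by ring
        _ = 1 := by rw [h1]; field_simp
  -- the quadratic form
  let Q : Matrix (Fin d) (Fin d) ℂ := fun c e => ∑ j ∈ T, u j * (star (x j c) * star (x j e))
  have hQsymm : Q.transpose = Q := by
    ext c e
    simp only [Matrix.transpose_apply, Q]
    apply Finset.sum_congr rfl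
    intro j _
    ring
  have hval : ∀ k, qf Q (x k) = ∑ j ∈ T, u j * inner ℂ (x j) (x k) ^ 2 := by
    intro k
    simp only [qf, Q]
    simp only [Finset.sum_mul]
    have e1 : ∀ j, u j * inner ℂ (x j) (x k) ^ 2 =
        ∑ c, ∑ e, u j * (star (x j c) * star (x j e)) * (x k c * x k e) := by
      intro j
      rw [inner_coord, sq, Finset.sum_mul_sum, Finset.mul_sum]
      apply Finset.sum_congr rfl
      intro c _
      rw [Finset.mul_sum]
      apply Finset.sum_congr rfl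
      intro e _
      ring
    rw [Finset.sum_congr rfl (fun j _ => e1 j)]
    conv_rhs => rw [Finset.sum_comm]
    apply Finset.sum_congr rfl
    intro c _
    conv_rhs => rw [Finset.sum_comm]
  have hvalT : ∀ k ∈ T, qf Q (x k) = kap d * u k := by
    intro k hk
    rw [hval, ← Finset.add_sum_erase T _ hk, h.inner_self]
    have h1 : ∑ j ∈ T.erase k, u j * inner ℂ (x j) (x k) ^ 2 =
        ∑ j ∈ T.erase k, u k / ((d : ℂ) + 1) := by
      apply Finset.sum_congr rfl
      intro j hj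
      rw [eq_div_iff hdC, ← hu j (Finset.mem_of_mem_erase hj) k hk (Finset.ne_of_mem_erase hj)]
      ring
    rw [h1, Finset.sum_const, Finset.card_erase_of_mem hk, hT, nsmul_eq_mul, Nat.cast_sub hd]
    unfold kap
    field_simp
    push_cast
    ring
  have hHS : ∑ c, ∑ e, Q c e * star (Q c e) = kap d * d := by
    have e1 : ∀ c e, Q c e * star (Q c e) = ∑ j ∈ T, star (u j) * (Q c e * (x j c * x j e)) := by
      intro c e
      conv_lhs => rw [show star (Q c e) = ∑ j ∈ T, star (u j) * (x j c * x j e) by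
        simp only [Q, star_sum, star_mul', star_star]]
      rw [Finset.mul_sum]
      apply Finset.sum_congr rfl
      intro j _
      ring
    simp only [e1]
    have e2 : ∑ c, ∑ e, ∑ j ∈ T, star (u j) * (Q c e * (x j c * x j e)) =
        ∑ j ∈ T, star (u j) * qf Q (x j) := by
      simp only [qf, Finset.mul_sum]
      conv_rhs => rw [Finset.sum_comm]
      apply Finset.sum_congr rfl
      intro c _
      conv_rhs => rw [Finset.sum_comm]
    rw [e2]
    have e3 : ∀ j ∈ T, star (u j) * qf Q (x j) = kap d := by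
      intro j hj
      rw [hvalT j hj]
      calc star (u j) * (kap d * u j) = kap d * (u j * star (u j)) := by ring
        _ = kap d := by rw [hu1 j hj, mul_one]
    rw [Finset.sum_congr rfl e3, Finset.sum_const, hT, nsmul_eq_mul, mul_comm]
  have htot := sum_sq h hd hcard Q hQsymm
  rw [hHS] at htot
  have hTsum : ∑ j ∈ T, qf Q (x j) * star (qf Q (x j)) = kap d * (kap d * d) := by
    have hkstar : star (kap d) = kap d := by
      unfold kap
      simp
    have e3 : ∀ j ∈ T, qf Q (x j) * star (qf Q (x j)) = kap d * kap d := by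
      intro j hj
      rw [hvalT j hj, star_mul', hkstar]
      calc kap d * u j * (kap d * star (u j)) = kap d * kap d * (u j * star (u j)) := by ring
        _ = _ := by rw [hu1 j hj, mul_one]
    rw [Finset.sum_congr rfl e3, Finset.sum_const, hT, nsmul_eq_mul]
    ring
  have hrest : ∑ j ∈ Tᶜ, qf Q (x j) * star (qf Q (x j)) = 0 := by
    have := Finset.sum_add_sum_compl T (fun j => qf Q (x j) * star (qf Q (x j)))
    rw [htot, hTsum] at this
    linear_combination this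
  have hzero : ∀ j, j ∉ T → qf Q (x j) = 0 := by
    intro j hj
    have e1 : ∀ i, qf Q (x i) * star (qf Q (x i)) = ((‖qf Q (x i)‖ ^ 2 : ℝ) : ℂ) := by
      intro i
      have := Complex.mul_conj (qf Q (x i))
      rw [Complex.normSq_eq_norm_sq] at this
      exact this
    simp only [e1] at hrest
    rw [← Complex.ofReal_sum] at hrest
    have h1 : ∑ i ∈ Tᶜ, ‖qf Q (x i)‖ ^ 2 = 0 := by exact_mod_cast hrest
    have h2 := (Finset.sum_eq_zero_iff_of_nonneg (fun i _ => sq_nonneg _)).mp h1 j (by simpa using hj)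
    exact norm_eq_zero.mp (pow_eq_zero_iff (by norm_num) |>.mp h2)
  refine ⟨Q, hQsymm, ?_, hzero⟩
  intro hQ0
  have h1 := hvalT o ho
  have h2 : qf Q (x o) = 0 := by
    rw [hQ0]; simp [qf]
  rw [h2] at h1
  simp [u] at h1
  exact kap_ne hd h1.symm

/-- the number of lines off a quadric is at least `2d/(d+1)` times the stable rank -/
theorem stable_rank (h : IsEtf d x) (hd : 1 ≤ d) (hcard : Fintype.card ι = d ^ 2)
    (Q : Matrix (Fin d) (Fin d) ℂ) (hQ : Q.transpose = Q)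
    (hop : ∀ v : EuclideanSpace ℂ (Fin d), ‖v‖ = 1 → ‖qf Q v‖ ≤ 1) :
    2 * (d : ℝ) / (d + 1) * ∑ c, ∑ e, ‖Q c e‖ ^ 2 ≤
      (Finset.univ.filter (fun j => qf Q (x j) ≠ 0)).card := by
  have h1 := sum_sq h hd hcard Q hQ
  have e1 : ∀ z : ℂ, z * star z = ((‖z‖ ^ 2 : ℝ) : ℂ) := by
    intro z
    have := Complex.mul_conj z
    rw [Complex.normSq_eq_norm_sq] at this
    exact this
  simp only [e1] at h1
  have h2 : ∑ j, ‖qf Q (x j)‖ ^ 2 = 2 * (d : ℝ) / (d + 1) * ∑ c, ∑ e, ‖Q c e‖ ^ 2 := by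
    have h3 : ((∑ j, ‖qf Q (x j)‖ ^ 2 : ℝ) : ℂ) =
        ((2 * (d : ℝ) / (d + 1) * ∑ c, ∑ e, ‖Q c e‖ ^ 2 : ℝ) : ℂ) := by
      unfold kap at h1
      push_cast
      push_cast at h1
      exact h1
    exact_mod_cast h3
  rw [← h2]
  have h4 : ∑ j, ‖qf Q (x j)‖ ^ 2 ≤ ∑ j, (if qf Q (x j) ≠ 0 then (1 : ℝ) else 0) := by
    apply Finset.sum_le_sum
    intro j _
    split_ifs with hj
    · have := hop (x j) (h.nrm j)
      have h0 := norm_nonneg (qf Q (x j))
      nlinarith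
    · push Not at hj
      rw [hj]; simp
  refine h4.trans ?_
  rw [Finset.sum_ite]
  simp

end Pool.Agent.H47.SIC.Quad
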