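import Mathlib

/-!
# Equiangular systems with the angle of a maximal ETF: normalised Gram matrices
-/

set_option autoImplicit false

namespace Pool.Agent.H47.SIC

open Matrix
open scoped ComplexOrder

/-- unit vectors of `ℂ^d` with pairwise inner products of modulus `1/√(d+1)` -/
def IsSystem {ι : Type*} (d : ℕ) (x : ι → EuclideanSpace ℂ (Fin d)) : Prop :=
  (∀ i, ‖x i‖ = 1) ∧ ∀ i j, i ≠ j → ‖inner ℂ (x i) (x j)‖ = 1 / Real.sqrt ((d : ℝ) + 1)

/-- the phase of three lines -/
noncomputable def ph {ι : Type*} {d : ℕ} (x : ι → EuclideanSpace ℂ (Fin d)) (i j k : ι) : ℂ :=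
  ((Real.sqrt ((d : ℝ) + 1) : ℝ) : ℂ) ^ 3 *
    (inner ℂ (x i) (x j) * inner ℂ (x j) (x k) * inner ℂ (x k) (x i))

/-- `√(d+1)` as a complex number -/
noncomputable def sq1 (d : ℕ) : ℂ := ((Real.sqrt ((d : ℝ) + 1) : ℝ) : ℂ)

theorem sq1_sq (d : ℕ) : sq1 d ^ 2 = (d : ℂ) + 1 := by
  unfold sq1
  rw [← Complex.ofReal_pow, Real.sq_sqrt (by positivity)]
  push_cast
  ring

theorem sqrt_pos' (d : ℕ) : 0 < Real.sqrt ((d : ℝ) + 1) := Real.sqrt_pos.mpr (by positivity)

theorem sq1_ne (d : ℕ) : sq1 d ≠ 0 := by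
  unfold sq1
  exact_mod_cast (sqrt_pos' d).ne'

theorem sq1_star (d : ℕ) : star (sq1 d) = sq1 d := by
  unfold sq1
  exact Complex.conj_ofReal _

section

variable {ι : Type*} [DecidableEq ι] {d : ℕ} {x : ι → EuclideanSpace ℂ (Fin d)}

/-- the phases normalising the column of `o` -/
noncomputable def nrm (x : ι → EuclideanSpace ℂ (Fin d)) (o i : ι) : ℂ :=
  if i = o then 1 else sq1 d * inner ℂ (x o) (x i)

/-- the normalised matrix of phases, zero on the diagonal -/
noncomputable def S (x : ι → EuclideanSpace ℂ (Fin d)) (o : ι) : Matrix ι ι ℂ := fun j k =>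
  if j = k then 0 else sq1 d * (nrm x o j * inner ℂ (x j) (x k) * star (nrm x o k))

theorem inner_mul_inner (hx : IsSystem d x) {i j : ι} (hij : i ≠ j) :
    inner ℂ (x i) (x j) * inner ℂ (x j) (x i) = (1 : ℂ) / ((d : ℂ) + 1) := by
  have h1 : inner ℂ (x j) (x i) = star (inner ℂ (x i) (x j)) := (inner_conj_symm _ _).symm
  rw [h1]
  have h2 := Complex.mul_conj (inner ℂ (x i) (x j))
  rw [Complex.normSq_eq_norm_sq, hx.2 i j hij] at h2
  have h3 : (1 / Real.sqrt ((d : ℝ) + 1)) ^ 2 = 1 / ((d : ℝ) + 1) := by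
    rw [div_pow, Real.sq_sqrt (by positivity), one_pow]
  rw [h3] at h2
  push_cast at h2
  exact h2

theorem self_inner (hx : IsSystem d x) (i : ι) : inner ℂ (x i) (x i) = (1 : ℂ) := by
  rw [inner_self_eq_norm_sq_to_K, hx.1 i]
  simp

theorem nrm_mul_star (hx : IsSystem d x) (o i : ι) : nrm x o i * star (nrm x o i) = 1 := by
  unfold nrm
  split_ifs with h
  · simp
  · have h1 : star (inner ℂ (x o) (x i)) = inner ℂ (x i) (x o) := inner_conj_symm _ _
    rw [star_mul', sq1_star, h1]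
    have h2 := inner_mul_inner hx (Ne.symm h)
    have h3 := sq1_sq d
    have h4 : (d : ℂ) + 1 ≠ 0 := by exact_mod_cast Nat.succ_ne_zero d
    calc sq1 d * inner ℂ (x o) (x i) * (sq1 d * inner ℂ (x i) (x o))
        = sq1 d ^ 2 * (inner ℂ (x o) (x i) * inner ℂ (x i) (x o)) := by ring
      _ = 1 := by rw [h2, h3]; field_simp

theorem S_isHermitian (x : ι → EuclideanSpace ℂ (Fin d)) (o : ι) : (S x o).IsHermitian := by
  ext j k
  rw [Matrix.conjTranspose_apply]
  unfold S
  by_cases h : j = k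
  · subst h; simp
  · rw [if_neg h, if_neg (Ne.symm h)]
    have h1 : star (inner ℂ (x k) (x j)) = inner ℂ (x j) (x k) := inner_conj_symm _ _
    simp only [star_mul', star_star, sq1_star, h1]
    ring

theorem S_diag (o j : ι) : S x o j j = 0 := by simp [S]

theorem S_mul_S (hx : IsSystem d x) (o : ι) {j k : ι} (hjk : j ≠ k) :
    S x o j k * S x o k j = 1 := by
  unfold S
  rw [if_neg hjk, if_neg (Ne.symm hjk)]
  have h1 := inner_mul_inner hx hjk
  have h2 := nrm_mul_star hx o j
  have h3 := nrm_mul_star hx o k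
  have h4 := sq1_sq d
  have h5 : (d : ℂ) + 1 ≠ 0 := by exact_mod_cast Nat.succ_ne_zero d
  calc sq1 d * (nrm x o j * inner ℂ (x j) (x k) * star (nrm x o k)) *
        (sq1 d * (nrm x o k * inner ℂ (x k) (x j) * star (nrm x o j)))
      = sq1 d ^ 2 * (inner ℂ (x j) (x k) * inner ℂ (x k) (x j)) *
        (nrm x o j * star (nrm x o j)) * (nrm x o k * star (nrm x o k)) := by ring
    _ = 1 := by rw [h1, h2, h3, h4]; field_simp

/-- the entries of the normalised matrix are `0`, `1` or phases of triples containing `o` -/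
theorem S_entry (hx : IsSystem d x) (o j k : ι) :
    (j = k ∧ S x o j k = 0) ∨ (j ≠ k ∧ (j = o ∨ k = o) ∧ S x o j k = 1) ∨
      (j ≠ k ∧ o ≠ j ∧ k ≠ o ∧ S x o j k = ph x o j k) := by
  by_cases hjk : j = k
  · left; exact ⟨hjk, by subst hjk; exact S_diag o j⟩
  right
  have h4 := sq1_sq d
  have h5 : (d : ℂ) + 1 ≠ 0 := by exact_mod_cast Nat.succ_ne_zero d
  by_cases hj : j = o
  · left
    refine ⟨hjk, Or.inl hj, ?_⟩
    subst hj
    unfold S nrm
    rw [if_neg hjk, if_pos rfl, if_neg (Ne.symm hjk)]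
    have h1 : star (inner ℂ (x j) (x k)) = inner ℂ (x k) (x j) := inner_conj_symm _ _
    rw [star_mul', sq1_star, h1]
    have h2 := inner_mul_inner hx hjk
    calc sq1 d * (1 * inner ℂ (x j) (x k) * (sq1 d * inner ℂ (x k) (x j)))
        = sq1 d ^ 2 * (inner ℂ (x j) (x k) * inner ℂ (x k) (x j)) := by ring
      _ = 1 := by rw [h2, h4]; field_simp
  · by_cases hk : k = o
    · left
      refine ⟨hjk, Or.inr hk, ?_⟩
      subst hk
      unfold S nrm
      rw [if_neg hjk, if_neg hj, if_pos rfl, star_one]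
      have h2 := inner_mul_inner hx (Ne.symm hjk)
      calc sq1 d * (sq1 d * inner ℂ (x k) (x j) * inner ℂ (x j) (x k) * 1)
          = sq1 d ^ 2 * (inner ℂ (x k) (x j) * inner ℂ (x j) (x k)) := by ring
        _ = 1 := by rw [h2, h4]; field_simp
    · right
      refine ⟨hjk, Ne.symm hj, hk, ?_⟩
      unfold S nrm ph
      rw [if_neg hjk, if_neg hj, if_neg hk]
      have h1 : star (inner ℂ (x o) (x k)) = inner ℂ (x k) (x o) := inner_conj_symm _ _
      rw [star_mul', sq1_star, h1]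
      unfold sq1
      ring

end

section

variable {ι : Type*} [DecidableEq ι] [Fintype ι] {d : ℕ} {x : ι → EuclideanSpace ℂ (Fin d)}

/-- the matrix whose rows are the normalised coordinate vectors -/
noncomputable def X (x : ι → EuclideanSpace ℂ (Fin d)) (o : ι) : Matrix ι (Fin d) ℂ := fun j a =>
  nrm x o j * star (x j a)

theorem S_add (hx : IsSystem d x) (o : ι) :
    S x o + (sq1 d) • (1 : Matrix ι ι ℂ) = (sq1 d) • (X x o * (X x o)ᴴ) := by
  ext j k
  simp only [Matrix.add_apply, Matrix.smul_apply, smul_eq_mul, Matrix.mul_apply,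
    Matrix.conjTranspose_apply]
  have h1 : ∑ a, X x o j a * star (X x o k a) =
      nrm x o j * inner ℂ (x j) (x k) * star (nrm x o k) := by
    unfold X
    rw [PiLp.inner_apply, Finset.mul_sum, Finset.sum_mul]
    apply Finset.sum_congr rfl
    intro a _
    simp only [star_mul', star_star, RCLike.inner_apply]
    have : (starRingEnd ℂ) (x j a) = star (x j a) := rfl
    rw [this]
    ring
  rw [h1]
  by_cases hjk : j = k
  · subst hjk
    rw [S_diag, self_inner hx, Matrix.one_apply_eq]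
    have h2 := nrm_mul_star hx o j
    calc 0 + sq1 d * 1 = sq1 d * (1 : ℂ) := by ring
      _ = sq1 d * (nrm x o j * star (nrm x o j)) := by rw [h2]
      _ = _ := by ring
  · rw [Matrix.one_apply_ne hjk]
    unfold S
    rw [if_neg hjk]
    ring

theorem rank_S_add_le (hx : IsSystem d x) (o : ι) :
    (S x o + (sq1 d) • (1 : Matrix ι ι ℂ)).rank ≤ d := by
  rw [S_add hx o]
  have h1 : (sq1 d) • (X x o * (X x o)ᴴ) = X x o * ((sq1 d) • (X x o)ᴴ) := by
    rw [Matrix.mul_smul]
  rw [h1]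
  refine (Matrix.rank_mul_le_left _ _).trans ?_
  simpa using Matrix.rank_le_card_width (X x o)

theorem posSemidef_S_add (hx : IsSystem d x) (o : ι) :
    (S x o + (sq1 d) • (1 : Matrix ι ι ℂ)).PosSemidef := by
  rw [S_add hx o]
  have h1 : (sq1 d) • (X x o * (X x o)ᴴ) = (Real.sqrt ((d : ℝ) + 1)) • (X x o * (X x o)ᴴ) := by
    ext i j
    simp [sq1]
  rw [h1]
  exact (Matrix.posSemidef_self_mul_conjTranspose (X x o)).smul (Real.sqrt_nonneg _)

/-- `tr S² = n (n - 1)` -/
theorem trace_S_sq (hx : IsSystem d x) (o : ι) :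
    (S x o * S x o).trace = (Fintype.card ι : ℂ) * ((Fintype.card ι : ℂ) - 1) := by
  rw [Matrix.trace]
  have h1 : ∀ j, Matrix.diag (S x o * S x o) j = (Fintype.card ι : ℂ) - 1 := by
    intro j
    rw [Matrix.diag_apply, Matrix.mul_apply]
    have h2 : ∀ k, S x o j k * S x o k j = 1 - if j = k then 1 else 0 := by
      intro k
      by_cases hjk : j = k
      · subst hjk; simp [S_diag]
      · rw [S_mul_S hx o hjk, if_neg hjk]; ring
    rw [Finset.sum_congr rfl (fun k _ => h2 k)]
    simp [Finset.sum_sub_distrib]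
  rw [Finset.sum_congr rfl (fun j _ => h1 j)]
  simp [Finset.sum_const, nsmul_eq_mul, mul_sub]

end

end Pool.Agent.H47.SIC
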