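import Mathlib

/-!
# Hermitian matrices with entries in a subfield: conjugate eigenvalues
-/

set_option autoImplicit false

namespace Pool.Agent.H47.SIC

open Polynomial Matrix

/-- conjugate roots `s, -s` (with `s² ∈ K`, `s ∉ K`) of a polynomial over `K` have the same
multiplicity -/
theorem rootMult_symm (K : Subfield ℂ) (s : ℂ) (hs : s ∉ K) (hs2 : s ^ 2 ∈ K) :
    ∀ (N : ℕ) (p : K[X]), p ≠ 0 → p.natDegree ≤ N →
      (p.map (algebraMap K ℂ)).rootMultiplicity s =
        (p.map (algebraMap K ℂ)).rootMultiplicity (-s) := by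
  have hs0 : s ≠ 0 := fun h => hs (h ▸ K.zero_mem)
  have hns : s ≠ -s := fun h => by
    have : (2 : ℂ) * s = 0 := by linear_combination h
    simp [hs0] at this
  set c : K := ⟨s ^ 2, hs2⟩ with hc
  have hcmap : algebraMap K ℂ c = s ^ 2 := rfl
  -- key fact
  have key : ∀ (p : K[X]) (t : ℂ), t ∉ K → t ^ 2 = s ^ 2 →
      (p.map (algebraMap K ℂ)).eval t = 0 → (X ^ 2 - C c) ∣ p := by
    intro p t ht ht2 hev
    have hmon : (X ^ 2 - C c : K[X]).Monic := monic_X_pow_sub_C c (by norm_num)
    rw [← modByMonic_eq_zero_iff_dvd hmon]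
    have hdeg : (p %ₘ (X ^ 2 - C c)).degree < 2 := by
      have := degree_modByMonic_lt p hmon
      rwa [degree_X_pow_sub_C (by norm_num)] at this
    have h1 : p = (X ^ 2 - C c) * (p /ₘ (X ^ 2 - C c)) + p %ₘ (X ^ 2 - C c) := by
      rw [add_comm]; exact (modByMonic_add_div p _).symm
    obtain ⟨a, b, hab⟩ : ∃ a b : K, p %ₘ (X ^ 2 - C c) = C a * X + C b := by
      have h2 : (p %ₘ (X ^ 2 - C c)).natDegree ≤ 1 := by
        by_cases h0 : p %ₘ (X ^ 2 - C c) = 0
        · rw [h0]; simp
        · rw [← Nat.lt_succ_iff]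
          exact (natDegree_lt_iff_degree_lt h0).mpr (by exact_mod_cast hdeg)
      exact exists_eq_X_add_C_of_natDegree_le_one h2
    rw [hab]
    have h3 : (p.map (algebraMap K ℂ)).eval t = (a : ℂ) * t + b := by
      conv_lhs => rw [h1, hab]
      simp only [Polynomial.map_add, Polynomial.map_mul, Polynomial.map_sub, Polynomial.map_pow,
        map_X, map_C, hcmap, eval_add, eval_mul, eval_sub, eval_pow, eval_X, eval_C, ht2]
      simp
      rfl
    rw [h3] at hev
    have ha : a = 0 := by
      by_contra ha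
      apply ht
      have ha' : (a : ℂ) ≠ 0 := by exact_mod_cast ha
      have : t = -(b : ℂ) / a := by
        field_simp
        linear_combination hev
      rw [this]
      exact K.div_mem (K.neg_mem b.2) a.2
    have hb : b = 0 := by
      rw [ha] at hev
      simp at hev
      exact hev
    rw [ha, hb]
    simp
  intro N
  induction N with
  | zero =>
    intro p hp hN
    have h1 : ∀ t : ℂ, t ∉ K → t ^ 2 = s ^ 2 →
        (p.map (algebraMap K ℂ)).rootMultiplicity t = 0 := by
      intro t ht ht2
      apply rootMultiplicity_eq_zero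
      intro hroot
      have h2 := key p t ht ht2 hroot
      have h3 := natDegree_le_of_dvd h2 hp
      rw [natDegree_X_pow_sub_C] at h3
      omega
    rw [h1 s hs rfl, h1 (-s) (fun h => hs (by simpa using K.neg_mem h)) (by ring)]
  | succ N ih =>
    intro p hp hN
    by_cases hroot : (X ^ 2 - C c) ∣ p
    · obtain ⟨q, hq⟩ := hroot
      have hq0 : q ≠ 0 := by rintro rfl; simp at hq; exact hp hq
      have hdegq : q.natDegree ≤ N := by
        have h4 : p.natDegree = 2 + q.natDegree := by
          rw [hq, natDegree_mul (X_pow_sub_C_ne_zero (by norm_num) c) hq0, natDegree_X_pow_sub_C]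
        omega
      have hfac : p.map (algebraMap K ℂ) = (X - C s) * ((X - C (-s)) * q.map (algebraMap K ℂ)) := by
        rw [hq]
        simp only [Polynomial.map_mul, Polynomial.map_sub, Polynomial.map_pow, map_X, map_C, hcmap]
        rw [C_neg, C_pow]
        ring
      have hqm : q.map (algebraMap K ℂ) ≠ 0 := (Polynomial.map_ne_zero_iff
        (algebraMap K ℂ).injective).mpr hq0
      have h5 : (X - C (-s)) * q.map (algebraMap K ℂ) ≠ 0 :=
        mul_ne_zero (X_sub_C_ne_zero _) hqm
      have h6 : (X - C s) * ((X - C (-s)) * q.map (algebraMap K ℂ)) ≠ 0 :=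
        mul_ne_zero (X_sub_C_ne_zero _) h5
      rw [hfac, rootMultiplicity_mul h6, rootMultiplicity_mul h5, rootMultiplicity_mul h6,
        rootMultiplicity_mul h5, ih q hq0 hdegq]
      simp only [rootMultiplicity_X_sub_C, if_neg hns, if_neg (Ne.symm hns), if_true]
      ring
    · have h1 : ∀ t : ℂ, t ∉ K → t ^ 2 = s ^ 2 →
          (p.map (algebraMap K ℂ)).rootMultiplicity t = 0 := by
        intro t ht ht2
        apply rootMultiplicity_eq_zero
        intro hr
        exact hroot (key p t ht ht2 hr)
      rw [h1 s hs rfl, h1 (-s) (fun h => hs (by simpa using K.neg_mem h)) (by ring)]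

variable {n : Type*} [Fintype n] [DecidableEq n]

/-- the eigenvalues `s` and `-s` of a Hermitian matrix with entries in `K` have the same
multiplicity -/
theorem card_eigen_symm (K : Subfield ℂ) (s : ℝ) (hs : (s : ℂ) ∉ K) (hs2 : (s : ℂ) ^ 2 ∈ K)
    {S : Matrix n n ℂ} (hS : S.IsHermitian) (hK : ∀ i j, S i j ∈ K) :
    (Finset.univ.filter (fun i => hS.eigenvalues i = s)).card =
      (Finset.univ.filter (fun i => hS.eigenvalues i = -s)).card := by
  let S' : Matrix n n K := fun i j => ⟨S i j, hK i j⟩
  have hmap : S = S'.map (algebraMap K ℂ) := by ext i j; rfl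
  have h1 : S.charpoly = S'.charpoly.map (algebraMap K ℂ) := by
    rw [hmap, Matrix.charpoly_map]
  have h2 := rootMult_symm K (s : ℂ) hs hs2 S'.charpoly.natDegree S'.charpoly
    (Matrix.charpoly_monic S').ne_zero le_rfl
  rw [← h1, ← count_roots, ← count_roots, hS.roots_charpoly_eq_eigenvalues] at h2
  have h3 : ∀ t : ℝ, Multiset.count (t : ℂ)
      (Multiset.map (RCLike.ofReal ∘ hS.eigenvalues) Finset.univ.val) =
      (Finset.univ.filter (fun i => hS.eigenvalues i = t)).card := by
    intro t
    rw [Multiset.count_map, ← Finset.filter_val, Finset.card_val]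
    congr 1
    ext i
    simp [Finset.mem_filter, eq_comm]
  have h4 := h3 s
  have h5 := h3 (-s)
  push_cast at h5
  rw [h4, h5] at h2
  exact h2

/-- rank of a shifted Hermitian matrix -/
theorem rank_add (s : ℝ) {S : Matrix n n ℂ} (hS : S.IsHermitian) :
    (S + (s : ℂ) • (1 : Matrix n n ℂ)).rank =
      Fintype.card {i // hS.eigenvalues i + s ≠ 0} := by
  have h1 : S + (s : ℂ) • (1 : Matrix n n ℂ) =
      (hS.eigenvectorUnitary : Matrix n n ℂ) *
        diagonal (fun i => ((hS.eigenvalues i + s : ℝ) : ℂ)) *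
        (star hS.eigenvectorUnitary : Matrix n n ℂ) := by
    have h2 := hS.spectral_theorem
    rw [Unitary.conjStarAlgAut_apply] at h2
    conv_lhs => rw [h2]
    have h3 : diagonal (fun i => ((hS.eigenvalues i + s : ℝ) : ℂ)) =
        diagonal (RCLike.ofReal ∘ hS.eigenvalues : n → ℂ) + (s : ℂ) • (1 : Matrix n n ℂ) := by
      ext i j
      by_cases hij : i = j
      · subst hij; simp
      · simp [hij]
    rw [h3, Matrix.mul_add, Matrix.add_mul]
    congr 1
    rw [Matrix.mul_smul, Matrix.smul_mul, Matrix.mul_one]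
    congr 1
    exact (Unitary.mul_star_self_of_mem hS.eigenvectorUnitary.2).symm
  rw [h1, ← Unitary.coe_star]
  simp only [Matrix.rank_mul_eq_left_of_isUnit_det,
    Matrix.rank_mul_eq_right_of_isUnit_det, UnitaryGroup.det_isUnit]
  rw [Matrix.rank_diagonal]
  apply Fintype.card_congr
  apply Equiv.subtypeEquivRight
  intro i
  norm_cast

/-- trace of the square -/
theorem trace_sq {S : Matrix n n ℂ} (hS : S.IsHermitian) :
    (S * S).trace = ∑ i, ((hS.eigenvalues i : ℝ) : ℂ) ^ 2 := by
  have h2 := hS.spectral_theorem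
  rw [Unitary.conjStarAlgAut_apply] at h2
  set U := (hS.eigenvectorUnitary : Matrix n n ℂ) with hU
  set D := (diagonal (RCLike.ofReal ∘ hS.eigenvalues : n → ℂ)) with hD
  have h3 : star U * U = 1 := Unitary.star_mul_self_of_mem hS.eigenvectorUnitary.2
  have h4 : S * S = U * (D * D) * star U := by
    conv_lhs => rw [h2]
    calc U * D * star U * (U * D * star U) = U * D * (star U * U) * (D * star U) := by
          simp only [Matrix.mul_assoc]
      _ = U * (D * D) * star U := by rw [h3]; simp only [Matrix.mul_assoc, Matrix.mul_one]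
  rw [h4, Matrix.trace_mul_comm, ← Matrix.mul_assoc, h3, Matrix.one_mul, hD,
    Matrix.diagonal_mul_diagonal, Matrix.trace_diagonal]
  apply Finset.sum_congr rfl
  intro i _
  simp [sq]

end Pool.Agent.H47.SIC
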