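import Mathlib
import Pool.Agent.H47.SIC.Herm
import Pool.Agent.H47.SIC.Gram

/-!
# Equiangular systems whose phases lie in a field not containing `√(d+1)`
-/

set_option autoImplicit false

namespace Pool.Agent.H47.SIC

open Matrix
open scoped ComplexOrder

variable {ι : Type*} [DecidableEq ι] [Fintype ι] {d : ℕ} {x : ι → EuclideanSpace ℂ (Fin d)}

/-- an eigenvalue inequality -/
theorem real_ineq (lam : ι → ℝ) (s : ℝ) (hs : 0 < s) (n M : ℕ)
    (hn : Fintype.card ι = n) (hge : ∀ i, -s ≤ lam i)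
    (h1 : (Finset.univ.filter (fun i => lam i = s)).card = M)
    (h2 : (Finset.univ.filter (fun i => lam i = -s)).card = M)
    (hsum : ∑ i, lam i = 0) (hsq : ∑ i, lam i ^ 2 = n * ((n : ℝ) - 1)) :
    2 * M ≤ n ∧ (n : ℝ) * ((n : ℝ) - 1) - n * s ^ 2 ≤
      s ^ 2 * (((n : ℝ) - 2 * M) * ((n : ℝ) - 2 * M - 2)) := by
  classical
  set P := Finset.univ.filter (fun i => lam i = s) with hP
  set N := Finset.univ.filter (fun i => lam i = -s) with hN
  have hdis : Disjoint P N := by
    rw [Finset.disjoint_left]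
    intro i hi hi'
    rw [hP, Finset.mem_filter] at hi
    rw [hN, Finset.mem_filter] at hi'
    have := hi.2.symm.trans hi'.2
    linarith
  set W := (P ∪ N)ᶜ with hW
  have hcard : (P ∪ N).card = 2 * M := by
    rw [Finset.card_union_of_disjoint hdis, h1, h2]; ring
  have hle : 2 * M ≤ n := by
    rw [← hcard, ← hn]; exact Finset.card_le_univ _
  have hWcard : (W.card : ℝ) = n - 2 * M := by
    rw [hW, Finset.card_compl, hcard, hn, Nat.cast_sub hle]; push_cast; ring
  have hsplit : ∀ f : ι → ℝ, ∑ i, f i = ∑ i ∈ P, f i + ∑ i ∈ N, f i + ∑ i ∈ W, f i := by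
    intro f
    rw [← Finset.sum_union hdis, hW, Finset.sum_add_sum_compl]
  have e1 : ∑ i ∈ P, lam i = M * s := by
    rw [Finset.sum_congr rfl (fun i hi => (Finset.mem_filter.mp hi).2), Finset.sum_const, h1,
      nsmul_eq_mul]
  have e2 : ∑ i ∈ N, lam i = -(M * s) := by
    rw [Finset.sum_congr rfl (fun i hi => (Finset.mem_filter.mp hi).2), Finset.sum_const, h2,
      nsmul_eq_mul]
    ring
  have e3 : ∑ i ∈ P, lam i ^ 2 = M * s ^ 2 := by
    rw [Finset.sum_congr rfl (fun i hi => by rw [(Finset.mem_filter.mp hi).2]), Finset.sum_const,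
      h1, nsmul_eq_mul]
  have e4 : ∑ i ∈ N, lam i ^ 2 = M * s ^ 2 := by
    rw [Finset.sum_congr rfl (fun i hi => by rw [(Finset.mem_filter.mp hi).2]), Finset.sum_const,
      h2, nsmul_eq_mul]
    ring
  have s1 := hsplit lam
  have s2 := hsplit (fun i => lam i ^ 2)
  rw [hsum, e1, e2] at s1
  rw [hsq, e3, e4] at s2
  have hW1 : ∑ i ∈ W, lam i = 0 := by linarith
  have hW2 : ∑ i ∈ W, lam i ^ 2 = n * ((n : ℝ) - 1) - 2 * M * s ^ 2 := by linarith
  have hu : ∑ i ∈ W, (lam i + s) = W.card * s := by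
    rw [Finset.sum_add_distrib, hW1]; simp
  have hu2 : ∑ i ∈ W, (lam i + s) ^ 2 = ∑ i ∈ W, lam i ^ 2 + W.card * s ^ 2 := by
    have : ∀ i ∈ W, (lam i + s) ^ 2 = lam i ^ 2 + 2 * s * lam i + s ^ 2 := fun i _ => by ring
    rw [Finset.sum_congr rfl this, Finset.sum_add_distrib, Finset.sum_add_distrib,
      ← Finset.mul_sum, hW1]
    simp
  have hineq : ∑ i ∈ W, (lam i + s) ^ 2 ≤ (∑ i ∈ W, (lam i + s)) ^ 2 :=
    Finset.sum_sq_le_sq_sum_of_nonneg (fun i _ => by linarith [hge i])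
  rw [hu, hu2, hW2, hWcard] at hineq
  refine ⟨hle, ?_⟩
  nlinarith [hineq]

/-- the inequality for a system of `n` lines whose phases lie in a field without `√(d+1)` -/
theorem field_bound (hx : IsSystem d x) (K : Subfield ℂ) (hs : sq1 d ∉ K)
    (hK : ∀ i j k, i ≠ j → j ≠ k → k ≠ i → ph x i j k ∈ K) (n : ℕ) (hn : Fintype.card ι = n) :
    n ≤ 2 * d ∧ (n : ℤ) * (n - d - 2) ≤ (d + 1) * ((2 * d - n) * (2 * d - n - 2)) := by
  classical
  rcases isEmpty_or_nonempty ι with hemp | ⟨⟨o⟩⟩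
  · have : n = 0 := by rw [← hn]; exact Fintype.card_eq_zero
    subst this
    refine ⟨by omega, ?_⟩
    push_cast
    rcases Nat.eq_zero_or_pos d with rfl | hd
    · norm_num
    · have h1 : (1 : ℤ) ≤ d := by exact_mod_cast hd
      have h2 : (0 : ℤ) ≤ (d + 1) * ((2 * d - 0) * (2 * d - 0 - 2)) :=
        mul_nonneg (by omega) (mul_nonneg (by omega) (by omega))
      simpa using h2
  have hd1 : (sq1 d) ^ 2 ∈ K := by
    rw [sq1_sq]
    exact K.add_mem (natCast_mem K d) K.one_mem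
  have hS := S_isHermitian x o
  have hSK : ∀ i j, S x o i j ∈ K := by
    intro i j
    rcases S_entry hx o i j with ⟨-, h⟩ | ⟨-, -, h⟩ | ⟨h1, h2, h3, h⟩
    · rw [h]; exact K.zero_mem
    · rw [h]; exact K.one_mem
    · rw [h]; exact hK _ _ _ h2 h1 h3
  set s : ℝ := Real.sqrt ((d : ℝ) + 1) with hsdef
  have hs0 : 0 < s := sqrt_pos' d
  have hss : s ^ 2 = (d : ℝ) + 1 := Real.sq_sqrt (by positivity)
  have hcs : sq1 d = (s : ℂ) := rfl
  rw [hcs] at hs hd1
  have hsym := card_eigen_symm K s hs hd1 hS hSK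
  set M := (Finset.univ.filter (fun i => hS.eigenvalues i = s)).card with hM
  have hrank := rank_S_add_le hx o
  rw [hcs, rank_add s hS, Fintype.card_subtype] at hrank
  have hMn : n ≤ d + M := by
    have h1 : (Finset.univ.filter (fun i => hS.eigenvalues i + s ≠ 0)).card +
        (Finset.univ.filter (fun i => ¬ (hS.eigenvalues i + s ≠ 0))).card = Fintype.card ι := by
      rw [Finset.card_filter_add_card_filter_not]
      rfl
    have h2 : (Finset.univ.filter (fun i => ¬ (hS.eigenvalues i + s ≠ 0))).card = M := by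
      rw [hsym]
      congr 1
      ext i
      simp only [Finset.mem_filter, Finset.mem_univ, true_and, not_not]
      constructor <;> intro h <;> linarith
    omega
  have hge : ∀ i, -s ≤ hS.eigenvalues i := by
    intro i
    have hp := posSemidef_S_add hx o
    rw [hcs] at hp
    have h1 := hp.re_dotProduct_nonneg (hS.eigenvectorBasis i : ι → ℂ)
    have h2 := hS.eigenvalues_eq i
    rw [Matrix.add_mulVec, dotProduct_add, map_add, ← h2, Matrix.smul_mulVec, Matrix.one_mulVec,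
      dotProduct_smul] at h1
    have h3 : dotProduct (star (hS.eigenvectorBasis i : ι → ℂ)) (hS.eigenvectorBasis i : ι → ℂ)
        = 1 := by
      rw [dotProduct_comm, ← EuclideanSpace.inner_eq_star_dotProduct, inner_self_eq_norm_sq_to_K,
        hS.eigenvectorBasis.orthonormal.1 i]
      simp
    rw [h3] at h1
    simp at h1
    linarith
  have hsum : ∑ i, hS.eigenvalues i = 0 := by
    have h1 := hS.trace_eq_sum_eigenvalues
    have h2 : (S x o).trace = 0 := by
      rw [Matrix.trace]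
      exact Finset.sum_eq_zero (fun i _ => S_diag o i)
    rw [h2] at h1
    have h3 : ((∑ i, hS.eigenvalues i : ℝ) : ℂ) = 0 := by
      push_cast; exact h1.symm
    exact_mod_cast h3
  have hsq : ∑ i, hS.eigenvalues i ^ 2 = (n : ℝ) * ((n : ℝ) - 1) := by
    have h1 := trace_sq hS
    rw [trace_S_sq hx o, hn] at h1
    have h3 : ((∑ i, hS.eigenvalues i ^ 2 : ℝ) : ℂ) = (((n : ℝ) * ((n : ℝ) - 1) : ℝ) : ℂ) := by
      push_cast; exact h1.symm
    exact_mod_cast h3
  obtain ⟨h2M, hfin⟩ := real_ineq hS.eigenvalues s hs0 n M hn hge rfl hsym.symm hsum hsq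
  rw [hss] at hfin
  have hfin' : (n : ℤ) * ((n : ℤ) - 1) - n * (d + 1) ≤
      (d + 1) * (((n : ℤ) - 2 * M) * ((n : ℤ) - 2 * M - 2)) := by
    exact_mod_cast hfin
  refine ⟨by omega, ?_⟩
  -- compare `w = n - 2M` with `m = 2d - n`
  have hw : (n : ℤ) - 2 * M = 2 * d - n ∨ (n : ℤ) - 2 * M ≤ 2 * d - n - 2 := by omega
  have hw0 : (0 : ℤ) ≤ (n : ℤ) - 2 * M := by omega
  have hd0 : (0 : ℤ) ≤ d := by omega
  rcases hw with hw | hw
  · rw [hw] at hfin'
    nlinarith [hfin']
  · have h4 : ((n : ℤ) - 2 * M) * ((n : ℤ) - 2 * M - 2) ≤ (2 * d - n) * (2 * d - n - 2) := by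
      nlinarith
    have h5 : ((d : ℤ) + 1) * (((n : ℤ) - 2 * M) * ((n : ℤ) - 2 * M - 2)) ≤
        (d + 1) * ((2 * d - n) * (2 * d - n - 2)) :=
      mul_le_mul_of_nonneg_left h4 (by omega)
    nlinarith [hfin', h5]

/-- `n < 2d - √(2d) + 1` -/
theorem sqrt_bound {d n : ℕ} (hd : 3 ≤ d) (h1 : n ≤ 2 * d)
    (h2 : (n : ℤ) * (n - d - 2) ≤ (d + 1) * ((2 * d - n) * (2 * d - n - 2))) :
    (n : ℝ) < 2 * d - Real.sqrt (2 * d) + 1 := by
  obtain ⟨m, hm⟩ := Nat.exists_eq_add_of_le h1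
  have hmZ : (2 * (d : ℤ) - n) = m := by omega
  have hn : (n : ℤ) = 2 * d - m := by omega
  rw [hmZ, hn] at h2
  have hdZ : (3 : ℤ) ≤ d := by exact_mod_cast hd
  have key : (2 * (d : ℤ)) < (m + 1) ^ 2 := by
    by_contra hcon
    push Not at hcon
    have h3 : 2 * (d : ℤ) * (d - 2) ≤ d * m ^ 2 + (d - 4) * m := by nlinarith [h2]
    have hm0 : (0 : ℤ) ≤ m := by omega
    rcases le_or_gt 3 m with hm3 | hm3
    · have hm3' : (3 : ℤ) ≤ m := by exact_mod_cast hm3
      nlinarith [mul_le_mul_of_nonneg_left hcon (by omega : (0 : ℤ) ≤ d)]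
    · interval_cases m
      · push_cast at h3
        nlinarith
      · push_cast at h3 hcon
        nlinarith
      · push_cast at h3 hcon
        nlinarith
  have h5 : Real.sqrt (2 * d) < m + 1 := by
    rw [Real.sqrt_lt' (by positivity)]
    exact_mod_cast key
  have h6 : (n : ℝ) = 2 * d - m := by
    have : ((n : ℤ) : ℝ) = ((2 * d - m : ℤ) : ℝ) := by rw [hn]
    push_cast at this
    exact this
  rw [h6]
  linarith

end Pool.Agent.H47.SIC
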