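import Mathlib
import Pool.Agent.H47.SIC.Gram

/-!
# Valuations of phases of equiangular systems
-/

set_option autoImplicit false

namespace Pool.Agent.H47.SIC

open Matrix

theorem matrix_rank_add_le {ι : Type*} [Fintype ι] (A B : Matrix ι ι ℂ) :
    (A + B).rank ≤ A.rank + B.rank := by
  have h1 : LinearMap.range (A + B).mulVecLin ≤
      LinearMap.range A.mulVecLin ⊔ LinearMap.range B.mulVecLin := by
    rintro _ ⟨v, rfl⟩
    rw [Matrix.mulVecLin_add, LinearMap.add_apply]
    exact Submodule.add_mem_sup ⟨v, rfl⟩ ⟨v, rfl⟩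
  unfold Matrix.rank
  exact (Submodule.finrank_mono h1).trans (Submodule.finrank_add_le_finrank_add_finrank _ _)

/-- a matrix congruent to the all-one matrix plus `c` times the identity modulo `c 𝔪` has corank at
most one -/
theorem corank_le_one {ι : Type*} [Fintype ι] [DecidableEq ι] (V : ValuationSubring ℂ) (c : ℂ)
    (hc : c ≠ 0) (B : Matrix ι ι ℂ) (hdiag : ∀ i, B i i = 1 + c)
    (hoff : ∀ i j, i ≠ j → (B i j - 1) / c ∈ V.nonunits) : Fintype.card ι ≤ B.rank + 1 := by
  classical
  -- the matrix over `V`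
  let E : Matrix ι ι V := fun i j => if h : i = j then 0 else
    ⟨(B i j - 1) / c, V.nonunits_subset (hoff i j h)⟩
  have hE : ∀ i j, E i j ∈ IsLocalRing.maximalIdeal V := by
    intro i j
    simp only [E]
    split_ifs with h
    · exact Ideal.zero_mem _
    · rw [← ValuationSubring.coe_mem_nonunits_iff]
      exact hoff i j h
  have hdet : ((1 + E).map (algebraMap V ℂ)).det ≠ 0 := by
    rw [← RingHom.mapMatrix_apply, ← RingHom.map_det]
    have h1 : (1 + E).det ≠ 0 := by
      intro h0
      have h2 := congrArg (IsLocalRing.residue V) h0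
      rw [RingHom.map_det, map_zero] at h2
      have h3 : (IsLocalRing.residue V).mapMatrix (1 + E) = 1 := by
        rw [map_add, map_one]
        have : (IsLocalRing.residue V).mapMatrix E = 0 := by
          ext i j
          rw [RingHom.mapMatrix_apply, Matrix.map_apply, Matrix.zero_apply,
            IsLocalRing.residue_eq_zero_iff]
          exact hE i j
        rw [this, add_zero]
      rw [h3, Matrix.det_one] at h2
      exact one_ne_zero h2
    intro h0
    exact h1 ((injective_iff_map_eq_zero _).mp (FaithfulSMul.algebraMap_injective V ℂ) _ h0)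
  set N := (1 + E).map (algebraMap V ℂ) with hN
  have hrank : (c • N).rank = Fintype.card ι := by
    rw [Matrix.rank_of_isUnit]
    rw [Matrix.isUnit_iff_isUnit_det, Matrix.det_smul]
    exact (mul_ne_zero (pow_ne_zero _ hc) hdet).isUnit
  have hdec : c • N = B + (-(Matrix.vecMulVec (fun _ => (1 : ℂ)) (fun _ => (1 : ℂ)))) := by
    ext i j
    simp only [hN, Matrix.smul_apply, Matrix.map_apply, Matrix.add_apply, smul_eq_mul,
      Matrix.neg_apply, Matrix.vecMulVec_apply, mul_one]
    by_cases hij : i = j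
    · subst hij
      rw [hdiag, Matrix.one_apply_eq]
      simp only [E, dif_pos]
      rw [add_zero, map_one]
      ring
    · rw [Matrix.one_apply_ne hij, zero_add]
      simp only [E, dif_neg hij]
      change c * ((B i j - 1) / c) = _
      field_simp
      ring
  have h4 := matrix_rank_add_le B (-(Matrix.vecMulVec (fun _ : ι => (1 : ℂ)) (fun _ : ι => (1 : ℂ))))
  rw [← hdec, hrank] at h4
  have h5 : (-(Matrix.vecMulVec (fun _ : ι => (1 : ℂ)) (fun _ : ι => (1 : ℂ)))).rank ≤ 1 := by
    have : -(Matrix.vecMulVec (fun _ : ι => (1 : ℂ)) (fun _ : ι => (1 : ℂ))) =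
        Matrix.vecMulVec (fun _ : ι => (-1 : ℂ)) (fun _ : ι => (1 : ℂ)) := by
      ext i j; simp [Matrix.vecMulVec_apply]
    rw [this]
    exact Matrix.rank_vecMulVec_le _ _
  omega

section

variable {ι : Type*} [DecidableEq ι] [Fintype ι] {d : ℕ} {x : ι → EuclideanSpace ℂ (Fin d)}

/-- the entrywise square of `S + √(d+1)` has rank at most `d(d+1)/2` -/
theorem rank_sq_le (hx : IsSystem d x) (o : ι) :
    (Matrix.of fun j k => (S x o + (sq1 d) • (1 : Matrix ι ι ℂ)) j k ^ 2).rank ≤
      (d + 1).choose 2 := by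
  classical
  let Y : Matrix ι (Sym2 (Fin d)) ℂ := fun j z =>
    Sym2.lift ⟨fun a b => X x o j a * X x o j b, fun a b => mul_comm _ _⟩ z
  let Z : Matrix (Sym2 (Fin d)) ι ℂ := fun z k =>
    ((Finset.univ.filter (fun p : Fin d × Fin d => Sym2.mk p.1 p.2 = z)).card : ℂ) *
      ((sq1 d) ^ 2 * Sym2.lift ⟨fun a b => star (X x o k a) * star (X x o k b),
        fun a b => mul_comm _ _⟩ z)
  have hfac : (Matrix.of fun j k => (S x o + (sq1 d) • (1 : Matrix ι ι ℂ)) j k ^ 2) = Y * Z := by
    ext j k
    rw [Matrix.of_apply, S_add hx o, Matrix.mul_apply]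
    simp only [Matrix.smul_apply, smul_eq_mul, Matrix.mul_apply, Matrix.conjTranspose_apply]
    have h1 : (sq1 d * ∑ a, X x o j a * star (X x o k a)) ^ 2 =
        ∑ p : Fin d × Fin d, Y j (Sym2.mk p.1 p.2) * ((sq1 d) ^ 2 *
          Sym2.lift ⟨fun a b => star (X x o k a) * star (X x o k b),
            fun a b => mul_comm _ _⟩ (Sym2.mk p.1 p.2)) := by
      rw [mul_pow, sq (∑ a, X x o j a * star (X x o k a)), Finset.sum_mul_sum, Finset.mul_sum,
        Fintype.sum_prod_type]
      apply Finset.sum_congr rfl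
      intro a _
      rw [Finset.mul_sum]
      apply Finset.sum_congr rfl
      intro b _
      simp only [Y, Sym2.lift_mk]
      ring
    rw [h1]
    rw [← Finset.sum_fiberwise_of_maps_to (s := Finset.univ) (t := Finset.univ)
      (g := fun p : Fin d × Fin d => Sym2.mk p.1 p.2) (by simp)]
    apply Finset.sum_congr rfl
    intro z _
    have h2 : ∀ p ∈ Finset.univ.filter (fun p : Fin d × Fin d => Sym2.mk p.1 p.2 = z),
        Y j (Sym2.mk p.1 p.2) * ((sq1 d) ^ 2 *
          Sym2.lift ⟨fun a b => star (X x o k a) * star (X x o k b),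
            fun a b => mul_comm _ _⟩ (Sym2.mk p.1 p.2)) =
        Y j z * ((sq1 d) ^ 2 *
          Sym2.lift ⟨fun a b => star (X x o k a) * star (X x o k b),
            fun a b => mul_comm _ _⟩ z) := by
      intro p hp
      rw [(Finset.mem_filter.mp hp).2]
    rw [Finset.sum_congr rfl h2, Finset.sum_const, nsmul_eq_mul]
    simp only [Z]
    ring
  rw [hfac]
  refine (Matrix.rank_mul_le_left _ _).trans ?_
  refine (Matrix.rank_le_card_width Y).trans ?_
  rw [Sym2.card, Fintype.card_fin]

theorem not_mem_nonunits {V : ValuationSubring ℂ} {a b : ℂ} (ha : a ≠ 0)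
    (h : b ≠ 0 → a / b ∉ V) : b / a ∈ V.nonunits := by
  by_cases hb : b = 0
  · rw [hb, zero_div]; exact V.nonunits.zero_mem
  · have h1 := h hb
    rw [ValuationSubring.mem_nonunits_iff_or]
    right
    rwa [inv_div]

/-- **Squares of phases.** -/
theorem val_sq (hx : IsSystem d x) (hd : 1 ≤ d) (hn : (d + 1).choose 2 + 2 ≤ Fintype.card ι)
    (V : ValuationSubring ℂ) (o : ι) :
    ∃ j k, o ≠ j ∧ j ≠ k ∧ k ≠ o ∧ ph x o j k ^ 2 ≠ 1 ∧
      (d : ℂ) / (ph x o j k ^ 2 - 1) ∈ V := by
  by_contra hcon
  push Not at hcon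
  have hd0 : (d : ℂ) ≠ 0 := by
    have : d ≠ 0 := by omega
    exact_mod_cast this
  have h1 := corank_le_one V (d : ℂ) hd0
    (Matrix.of fun j k => (S x o + (sq1 d) • (1 : Matrix ι ι ℂ)) j k ^ 2) (by
      intro i
      rw [Matrix.of_apply, Matrix.add_apply, S_diag, Matrix.smul_apply, Matrix.one_apply_eq]
      simp only [smul_eq_mul, mul_one, zero_add]
      rw [sq1_sq]; ring) (by
      intro i j hij
      rw [Matrix.of_apply, Matrix.add_apply, Matrix.smul_apply, Matrix.one_apply_ne hij]
      simp only [smul_eq_mul, mul_zero, add_zero]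
      apply not_mem_nonunits hd0
      intro hne
      rcases S_entry hx o i j with ⟨h, -⟩ | ⟨-, -, h⟩ | ⟨-, h2, h3, h⟩
      · exact absurd h hij
      · rw [h] at hne; simp at hne
      · rw [h] at hne ⊢
        exact hcon i j h2 hij h3 (fun h4 => hne (by rw [h4]; ring)))
  have h2 := rank_sq_le hx o
  omega

/-- **Phases.** -/
theorem val_one (hx : IsSystem d x) (hd : 1 ≤ d) (hn : d + 2 ≤ Fintype.card ι)
    (V : ValuationSubring ℂ) (o : ι) :
    ∃ j k, o ≠ j ∧ j ≠ k ∧ k ≠ o ∧ ph x o j k ≠ 1 ∧
      (sq1 d - 1) / (ph x o j k - 1) ∈ V := by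
  by_contra hcon
  push Not at hcon
  have hs0 : sq1 d - 1 ≠ 0 := by
    intro h0
    have h1 : sq1 d = 1 := by linear_combination h0
    have h2 := sq1_sq d
    rw [h1] at h2
    have h3 : (d : ℂ) = 0 := by linear_combination -h2
    have : d ≠ 0 := by omega
    exact this (by exact_mod_cast h3)
  have h1 := corank_le_one V (sq1 d - 1) hs0 (S x o + (sq1 d) • (1 : Matrix ι ι ℂ)) (by
      intro i
      rw [Matrix.add_apply, S_diag, Matrix.smul_apply, Matrix.one_apply_eq]
      simp only [smul_eq_mul, mul_one, zero_add]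
      ring) (by
      intro i j hij
      rw [Matrix.add_apply, Matrix.smul_apply, Matrix.one_apply_ne hij]
      simp only [smul_eq_mul, mul_zero, add_zero]
      apply not_mem_nonunits hs0
      intro hne
      rcases S_entry hx o i j with ⟨h, -⟩ | ⟨-, -, h⟩ | ⟨-, h2, h3, h⟩
      · exact absurd h hij
      · rw [h] at hne; simp at hne
      · rw [h] at hne ⊢
        exact hcon i j h2 hij h3 (fun h4 => hne (by rw [h4]; ring)))
  have h2 := rank_S_add_le hx o
  omega

end

end Pool.Agent.H47.SIC
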