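import Mathlib
import Pool.Agent.H47.SIC.Val
import Pool.Agent.H47.SIC.FieldBound
import Pool.Graph.R_seed8.TH560.RU.Main

/-!
# Subsystems of maximal ETFs whose phases are `p`-power roots of unity
-/

set_option autoImplicit false

namespace Pool.Agent.H47.SIC

open Matrix

variable {ι : Type*} [DecidableEq ι] [Fintype ι] {d : ℕ} {x : ι → EuclideanSpace ℂ (Fin d)}

/-- a valuation ring in which `p` is not a unit -/
theorem exists_val (p : ℕ) (hp : p.Prime) :
    ∃ V : ValuationSubring ℂ, (p : ℂ) ∈ V.nonunits := by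
  let A : Subring ℂ := (Int.castRingHom ℂ).range
  let pA : A := ⟨(p : ℂ), ⟨(p : ℤ), by simp⟩⟩
  have hI : Ideal.span {pA} ≠ ⊤ := by
    intro h
    rw [Ideal.span_singleton_eq_top, isUnit_iff_exists_inv] at h
    obtain ⟨⟨b, ⟨z, rfl⟩⟩, hb⟩ := h
    have h1 := congrArg Subtype.val hb
    simp only [Subring.coe_mul, Subring.coe_one, pA] at h1
    have h2 : ((p : ℤ) * z : ℤ) = 1 := by
      have : (((p : ℤ) * z : ℤ) : ℂ) = ((1 : ℤ) : ℂ) := by push_cast; simpa using h1
      exact_mod_cast this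
    have h3 := Int.isUnit_iff.mp (IsUnit.of_mul_eq_one z h2)
    have := hp.two_le
    omega
  obtain ⟨V, -, hV⟩ := Ideal.image_subset_nonunits_valuationSubring (Ideal.span {pA}) hI
  exact ⟨V, hV ⟨pA, Ideal.mem_span_singleton_self pA, rfl⟩⟩

theorem one_notMem_nonunits (V : ValuationSubring ℂ) : (1 : ℂ) ∉ V.nonunits := by
  rw [ValuationSubring.mem_nonunits_iff, map_one]
  exact lt_irrefl _

theorem mul_mem_nonunits {V : ValuationSubring ℂ} {a b : ℂ} (ha : a ∈ V) (hb : b ∈ V.nonunits) :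
    a * b ∈ V.nonunits := by
  rw [ValuationSubring.mem_nonunits_iff] at hb ⊢
  rw [map_mul]
  have h1 : V.valuation a ≤ 1 := (V.valuation_le_one_iff a).mpr ha
  exact lt_of_le_of_lt (mul_le_of_le_one_left' h1) hb

/-- an integer in the maximal ideal is divisible by `p` -/
theorem dvd_of_nonunits {V : ValuationSubring ℂ} {p : ℕ} (hp : p.Prime)
    (hV : (p : ℂ) ∈ V.nonunits) {m : ℕ} (hm : (m : ℂ) ∈ V.nonunits) : p ∣ m := by
  by_contra hpm
  have hcop : Nat.Coprime p m := (Nat.Prime.coprime_iff_not_dvd hp).mpr hpm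
  have h1 := Nat.isCoprime_iff_coprime.mpr hcop
  obtain ⟨a, b, hab⟩ := h1
  apply one_notMem_nonunits V
  have h2 : (a : ℂ) * p + b * m = 1 := by exact_mod_cast congrArg (Int.cast : ℤ → ℂ) hab
  rw [← h2]
  exact V.nonunits.add_mem (mul_mem_nonunits (intCast_mem V a) hV)
    (mul_mem_nonunits (intCast_mem V b) hm)

/-- `p`-power roots of unity are congruent to one -/
theorem root_sub_one {V : ValuationSubring ℂ} {p : ℕ} (hp : p.Prime)
    (hV : (p : ℂ) ∈ V.nonunits) {z : ℂ} {a : ℕ} (hz : z ^ p ^ a = 1) : z - 1 ∈ V.nonunits := by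
  have hzV : z ∈ V := by
    by_contra hz'
    have h1 : z⁻¹ ∈ V.nonunits := by
      rw [ValuationSubring.inv_mem_nonunits_iff]; exact Or.inr hz'
    have h2 : z⁻¹ ∈ V := V.nonunits_subset h1
    have h3 : (z⁻¹) ^ (p ^ a) = 1 := by rw [inv_pow, hz, inv_one]
    have hpos : 0 < p ^ a := pow_pos hp.pos a
    apply one_notMem_nonunits V
    rw [← h3, ← Nat.succ_pred_eq_of_pos hpos, pow_succ]
    exact mul_mem_nonunits (pow_mem h2 _) h1
  have : Fact p.Prime := ⟨hp⟩
  have hchar : CharP (IsLocalRing.ResidueField V) p := by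
    have h1 : (p : IsLocalRing.ResidueField V) = 0 := by
      have h2 : IsLocalRing.residue V (p : V) = 0 := by
        rw [IsLocalRing.residue_eq_zero_iff, ← ValuationSubring.coe_mem_nonunits_iff]
        simpa using hV
      simpa using h2
    exact (CharP.charP_iff_prime_eq_zero hp).mpr h1
  set r := IsLocalRing.residue V ⟨z, hzV⟩ with hr
  have h1 : r ^ p ^ a = 1 := by
    rw [hr, ← map_pow]
    have : (⟨z, hzV⟩ : V) ^ p ^ a = 1 := Subtype.ext hz
    rw [this, map_one]
  have h2 : (r - 1) ^ p ^ a = 0 := by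
    rw [sub_pow_char_pow, h1, one_pow, sub_self]
  have h3 : r - 1 = 0 := pow_eq_zero_iff (pow_pos hp.pos a).ne' |>.mp h2
  have h4 : IsLocalRing.residue V (⟨z, hzV⟩ - 1) = 0 := by rw [map_sub, map_one]; exact h3
  rw [IsLocalRing.residue_eq_zero_iff, ← ValuationSubring.coe_mem_nonunits_iff] at h4
  simpa using h4

theorem sq1_mem (V : ValuationSubring ℂ) (d : ℕ) : sq1 d ∈ V := by
  by_contra h
  have h1 : (sq1 d)⁻¹ ∈ V.nonunits := by
    rw [ValuationSubring.inv_mem_nonunits_iff]; exact Or.inr h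
  have h2 := sq1_sq d
  apply one_notMem_nonunits V
  have h3 : (1 : ℂ) = (((d + 1 : ℕ) : ℂ) * (sq1 d)⁻¹) * (sq1 d)⁻¹ := by
    have h4 := sq1_ne d
    push_cast
    rw [← h2]
    field_simp
  rw [h3]
  exact mul_mem_nonunits (mul_mem (natCast_mem V _) (V.nonunits_subset h1)) h1

/-- `p` divides `d` -/
theorem dvd_d (hx : IsSystem d x) (hd : 1 ≤ d) (hn : d + 2 ≤ Fintype.card ι) {p a : ℕ}
    (hp : p.Prime) (hph : ∀ i j k, i ≠ j → j ≠ k → k ≠ i → ph x i j k ^ p ^ a = 1)
    {V : ValuationSubring ℂ} (hV : (p : ℂ) ∈ V.nonunits) :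
    sq1 d - 1 ∈ V.nonunits ∧ p ∣ d := by
  obtain ⟨o⟩ : Nonempty ι := Fintype.card_pos_iff.mp (by omega)
  obtain ⟨j, k, h1, h2, h3, h4, h5⟩ := val_one hx hd hn V o
  have h6 := root_sub_one hp hV (hph o j k h1 h2 h3)
  have h7 : sq1 d - 1 ∈ V.nonunits := by
    have h8 : sq1 d - 1 = (sq1 d - 1) / (ph x o j k - 1) * (ph x o j k - 1) := by
      field_simp [sub_ne_zero.mpr h4]
    rw [h8]
    exact mul_mem_nonunits h5 h6
  refine ⟨h7, ?_⟩
  apply dvd_of_nonunits hp hV
  have h9 : (d : ℂ) = (sq1 d + 1) * (sq1 d - 1) := by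
    have := sq1_sq d
    linear_combination -this
  rw [h9]
  exact mul_mem_nonunits (add_mem (sq1_mem V d) V.one_mem) h7

/-- `√(d+1)` lies in the cyclotomic field if `p` is odd -/
theorem sqrt_mem_cyclotomic (hx : IsSystem d x) (hd : 1 ≤ d) (hn : d + 2 ≤ Fintype.card ι)
    {p a : ℕ} (hp : p.Prime) (hp2 : p ≠ 2)
    (hph : ∀ i j k, i ≠ j → j ≠ k → k ≠ i → ph x i j k ^ p ^ a = 1) {ζ : ℂ}
    (hζ : IsPrimitiveRoot ζ (p ^ a)) :
    sq1 d ∈ IntermediateField.adjoin ℚ ({ζ} : Set ℂ) := by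
  classical
  by_contra hs
  obtain ⟨V, hV⟩ := exists_val p hp
  obtain ⟨hs1, -⟩ := dvd_d hx hd hn hp hph hV
  obtain ⟨o⟩ : Nonempty ι := Fintype.card_pos_iff.mp (by omega)
  set K : Subfield ℂ := (IntermediateField.adjoin ℚ ({ζ} : Set ℂ)).toSubfield with hK
  have hsK : sq1 d ∉ K := hs
  have hpos : 0 < p ^ a := pow_pos hp.pos a
  have hphK : ∀ i j k, i ≠ j → j ≠ k → k ≠ i → ph x i j k ∈ K := fun i j k h1 h2 h3 =>
    Pool.Agent.TH560.RU.mem_adjoin_of_pow hpos hζ (hph i j k h1 h2 h3)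
  have hd1 : (sq1 d) ^ 2 ∈ K := by
    rw [sq1_sq]
    exact K.add_mem (natCast_mem K d) K.one_mem
  have hS := S_isHermitian x o
  have hSK : ∀ i j, S x o i j ∈ K := by
    intro i j
    rcases S_entry hx o i j with ⟨-, h⟩ | ⟨-, -, h⟩ | ⟨h1, h2, h3, h⟩
    · rw [h]; exact K.zero_mem
    · rw [h]; exact K.one_mem
    · rw [h]; exact hphK _ _ _ h2 h1 h3
  set s : ℝ := Real.sqrt ((d : ℝ) + 1) with hsdef
  have hcs : sq1 d = (s : ℂ) := rfl
  have hsym := card_eigen_symm K s (by rw [← hcs]; exact hsK) (by rw [← hcs]; exact hd1) hS hSK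
  have hrank := rank_S_add_le hx o
  rw [hcs, rank_add s hS, Fintype.card_subtype] at hrank
  have hrank2 : (S x o + ((-s : ℝ) : ℂ) • (1 : Matrix ι ι ℂ)).rank ≤ d := by
    rw [rank_add (-s) hS, Fintype.card_subtype]
    have h1 : (Finset.univ.filter (fun i => hS.eigenvalues i + s ≠ 0)).card +
        (Finset.univ.filter (fun i => ¬ (hS.eigenvalues i + s ≠ 0))).card = Fintype.card ι := by
      rw [Finset.card_filter_add_card_filter_not]
      rfl
    have h2 : (Finset.univ.filter (fun i => hS.eigenvalues i + -s ≠ 0)).card +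
        (Finset.univ.filter (fun i => ¬ (hS.eigenvalues i + -s ≠ 0))).card = Fintype.card ι := by
      rw [Finset.card_filter_add_card_filter_not]
      rfl
    have h3 : (Finset.univ.filter (fun i => ¬ (hS.eigenvalues i + s ≠ 0))).card =
        (Finset.univ.filter (fun i => ¬ (hS.eigenvalues i + -s ≠ 0))).card := by
      have e1 : (Finset.univ.filter (fun i => ¬ (hS.eigenvalues i + s ≠ 0))) =
          (Finset.univ.filter (fun i => hS.eigenvalues i = -s)) := by
        ext i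
        simp only [Finset.mem_filter, Finset.mem_univ, true_and, not_not]
        constructor <;> intro h <;> linarith
      have e2 : (Finset.univ.filter (fun i => ¬ (hS.eigenvalues i + -s ≠ 0))) =
          (Finset.univ.filter (fun i => hS.eigenvalues i = s)) := by
        ext i
        simp only [Finset.mem_filter, Finset.mem_univ, true_and, not_not]
        constructor <;> intro h <;> linarith
      rw [e1, e2, hsym]
    omega
  -- the conjugate system
  have hc0 : -sq1 d - 1 ≠ 0 := by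
    rw [hcs]
    have h1 : 0 < s := sqrt_pos' d
    have : (-s - 1 : ℝ) ≠ 0 := by linarith
    exact_mod_cast this
  have h1 : Fintype.card ι ≤ (S x o + ((-s : ℝ) : ℂ) • (1 : Matrix ι ι ℂ)).rank + 1 ∨
      sq1 d + 1 ∈ V.nonunits := by
    by_contra hcon
    push Not at hcon
    obtain ⟨hc1, hc2⟩ := hcon
    apply absurd _ (not_le.mpr hc1)
    apply corank_le_one V (-sq1 d - 1) hc0
    · intro i
      rw [Matrix.add_apply, S_diag, Matrix.smul_apply, Matrix.one_apply_eq, hcs]
      simp only [smul_eq_mul, mul_one, zero_add]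
      push_cast
      ring
    · intro i j hij
      rw [Matrix.add_apply, Matrix.smul_apply, Matrix.one_apply_ne hij]
      simp only [smul_eq_mul, mul_zero, add_zero]
      have hunit : (-sq1 d - 1)⁻¹ ∈ V := by
        have h2 : -sq1 d - 1 ∉ V.nonunits := by
          intro h3
          apply hc2
          have h4 := V.nonunits.neg_mem h3
          have h5 : -(-sq1 d - 1) = sq1 d + 1 := by ring
          rwa [h5] at h4
        by_contra h3
        apply h2
        rw [ValuationSubring.mem_nonunits_iff_or]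
        exact Or.inr h3
      have hnu : S x o i j - 1 ∈ V.nonunits := by
        rcases S_entry hx o i j with ⟨h, -⟩ | ⟨-, -, h⟩ | ⟨-, h2, h3, h⟩
        · exact absurd h hij
        · rw [h, sub_self]; exact V.nonunits.zero_mem
        · rw [h]; exact root_sub_one hp hV (hph _ _ _ h2 hij h3)
      rw [div_eq_inv_mul]
      exact mul_mem_nonunits hunit hnu
  rcases h1 with h1 | h1
  · omega
  · have h2 : ((2 : ℕ) : ℂ) ∈ V.nonunits := by
      have h3 := V.nonunits.sub_mem h1 hs1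
      have h4 : sq1 d + 1 - (sq1 d - 1) = ((2 : ℕ) : ℂ) := by push_cast; ring
      rwa [h4] at h3
    have h3 := dvd_of_nonunits hp hV h2
    exact hp2 ((Nat.prime_dvd_prime_iff_eq hp Nat.prime_two).mp h3)

/-- `d + 1` is a square if `p` is odd -/
theorem isSquare_of (hx : IsSystem d x) (hd : 1 ≤ d) (hn : d + 2 ≤ Fintype.card ι)
    {p a : ℕ} (hp : p.Prime) (hp2 : p ≠ 2)
    (hph : ∀ i j k, i ≠ j → j ≠ k → k ≠ i → ph x i j k ^ p ^ a = 1) : IsSquare (d + 1) := by
  obtain ⟨V, hV⟩ := exists_val p hp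
  obtain ⟨-, hpd⟩ := dvd_d hx hd hn hp hph hV
  have hpos : 0 < p ^ a := pow_pos hp.pos _
  have hζ := Complex.isPrimitiveRoot_exp (p ^ a) hpos.ne'
  have h1 := sqrt_mem_cyclotomic hx hd hn hp hp2 hph hζ
  obtain ⟨m, D, hDm, hD⟩ := Nat.sq_mul_squarefree (d + 1)
  have hDm' : d + 1 = m * D ^ 2 := by rw [← hDm]; ring
  have hD0 : (D : ℂ) ≠ 0 := by
    intro h0
    have : D = 0 := by exact_mod_cast h0
    rw [this] at hDm'
    simp at hDm'
  have h2 : sq1 d / D ∈ IntermediateField.adjoin ℚ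
      ({Complex.exp (2 * Real.pi * Complex.I / (p ^ a : ℕ))} : Set ℂ) :=
    div_mem h1 (natCast_mem _ _)
  have h3 : (sq1 d / D) ^ 2 = ((m : ℤ) : ℂ) := by
    rw [div_pow, sq1_sq, div_eq_iff (pow_ne_zero 2 hD0)]
    have : ((d + 1 : ℕ) : ℂ) = ((m * D ^ 2 : ℕ) : ℂ) := by rw [hDm']
    push_cast at this ⊢
    exact this
  obtain ⟨c1, -, -⟩ := Pool.Agent.TH560.RU.conductor hpos hζ (m : ℤ)
    (Pool.Agent.TH560.RU.squarefree_int hD) _ h2 h3
  have hm1 : m = 1 := by
    by_contra hm1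
    obtain ⟨q, hq, hqm⟩ := Nat.exists_prime_and_dvd hm1
    have hqd : q ∣ d + 1 := by rw [hDm']; exact Dvd.dvd.mul_right hqm _
    have hqn := c1 q hq (by exact_mod_cast hqm)
    have hqp : q = p := (Nat.prime_dvd_prime_iff_eq hq hp).1 (hq.dvd_of_dvd_pow hqn)
    subst hqp
    have h3 := (Nat.dvd_add_right hpd).1 hqd
    exact hq.one_lt.ne' (Nat.dvd_one.1 h3)
  rw [hDm', hm1, one_mul]
  exact ⟨D, by ring⟩

end Pool.Agent.H47.SIC
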