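import Mathlib
import Pool.Agent.H47.SIC.PrimePower

/-!
# Real specialisations of the phases
-/

set_option autoImplicit false

namespace Pool.Agent.H47.SIC

/-- a valuation ring of `ℂ` centred at the kernel of a homomorphism to a field -/
theorem exists_val_of_hom (R : Subring ℂ) {F : Type*} [Field F] (f : R →+* F) :
    ∃ V : ValuationSubring ℂ, (∀ z : R, f z = 0 → (z : ℂ) ∈ V.nonunits) ∧
      ∀ z : R, f z ≠ 0 → (z : ℂ) ∉ V.nonunits := by
  let P : Ideal R := RingHom.ker f
  have hP : P.IsPrime := RingHom.ker_isPrime f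
  let A := (LocalSubring.ofPrime R P).toSubring
  obtain ⟨V, hAV, hV⟩ := Ideal.image_subset_nonunits_valuationSubring (A := A)
    (IsLocalRing.maximalIdeal A) (Ideal.IsPrime.ne_top inferInstance)
  have hmap : ∀ z : R, ((algebraMap R A z : A) : ℂ) = (z : ℂ) := fun z => rfl
  refine ⟨V, ?_, ?_⟩
  · intro z hz
    apply hV
    refine ⟨algebraMap R A z, ?_, hmap z⟩
    have h1 := (IsLocalization.AtPrime.isUnit_to_map_iff A P z).not
    rw [SetLike.mem_coe, IsLocalRing.mem_maximalIdeal, mem_nonunits_iff, h1]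
    intro h2
    exact h2 hz
  · intro z hz hzV
    have hz' : z ∈ P.primeCompl := fun h => hz h
    have h1 : IsUnit (algebraMap R A z) :=
      (IsLocalization.AtPrime.isUnit_to_map_iff A P z).mpr hz'
    obtain ⟨w, hw⟩ := isUnit_iff_exists_inv.mp h1
    have h2 : (z : ℂ) * (w : ℂ) = 1 := by
      have := congrArg Subtype.val hw
      exact this
    have h3 : (w : ℂ) ∈ V := hAV w.2
    apply one_notMem_nonunits V
    rw [← h2, mul_comm]
    exact mul_mem_nonunits h3 hzV

end Pool.Agent.H47.SIC
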